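import Mathlib

/-!
The approximate double description method (ADDM).
-/

set_option autoImplicit false

namespace Pool.Agent.Helper25.Addm

open Matrix Finset

/-! ## The algorithm -/

/-- `{x : A x ≤ t 𝟙}`; so `Poly A 1 = P` and `Poly A (1 + ε) = (1 + ε) P`. -/
def Poly {m d : ℕ} (A : Matrix (Fin m) (Fin d) ℝ) (t : ℝ) : Set (Fin d → ℝ) :=
  {x | ∀ j, A j ⬝ᵥ x ≤ t}

/-- The first `d + 1` row indices. -/
def firstRows (m d : ℕ) : Finset (Fin m) := Finset.univ.filter (fun j => j.val < d + 1)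

/-- The set `S = {x : A_j x ≤ 1, j ≤ d + 1}`. -/
def startSet {m d : ℕ} (A : Matrix (Fin m) (Fin d) ℝ) : Set (Fin d → ℝ) :=
  {x | ∀ j ∈ firstRows m d, A j ⬝ᵥ x ≤ 1}

/-- `S` is a `d`-dimensional simplex in `ℝ^d`. -/
def IsSimplex {d : ℕ} (S : Set (Fin d → ℝ)) : Prop :=
  ∃ w : Fin (d + 1) → Fin d → ℝ, AffineIndependent ℝ w ∧ S = convexHull ℝ (Set.range w)

/-- A state of the algorithm: finitely many nodes, each with a point `c` and an index set `I`,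
and an edge relation `E`. -/
structure State (m d : ℕ) where
  N : Type
  fin : Finite N
  c : N → Fin d → ℝ
  I : N → Finset (Fin m)
  E : N → N → Prop

/-- The start: nodes `v_j`, `j ≤ d + 1`, complete graph, `I(v_j) = [d+1] ∖ {j}`, and `c(v_j)` is the
vertex of `(1 + ε/2) S` with `A_k c(v_j) = 1 + ε/2` for `k ∈ [d+1] ∖ {j}`. -/
def IsStart {m d : ℕ} (A : Matrix (Fin m) (Fin d) ℝ) (ε : ℝ) (s : State m d) : Prop :=
  ∃ e : s.N ≃ {j // j ∈ firstRows m d},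
    (∀ u, s.I u = (firstRows m d).erase (e u)) ∧
    (∀ u, ∀ k ∈ s.I u, A k ⬝ᵥ s.c u = 1 + ε / 2) ∧
    (∀ u, ∀ k ∈ firstRows m d, A k ⬝ᵥ s.c u ≤ 1 + ε / 2) ∧
    ∀ u w, s.E u w ↔ u ≠ w

/-- Step (a) for row `i`: `κ = -1, 0, 1` encodes membership in `V_-`, `V_0`, `V_+`. -/
structure ValidChoice {m d : ℕ} (A : Matrix (Fin m) (Fin d) ℝ) (ε : ℝ) (i : Fin m)
    (s : State m d) (κ : s.N → SignType) : Prop where
  nonempty : ∃ u, κ u = -1
  neg : ∀ u, κ u = -1 → A i ⬝ᵥ s.c u < 1 + ε / 2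
  pos : ∀ u, κ u = 1 → 1 + ε / 2 < A i ⬝ᵥ s.c u
  zero : ∀ u, κ u = 0 → 1 ≤ A i ⬝ᵥ s.c u ∧ A i ⬝ᵥ s.c u ≤ 1 + ε

/-- The edges `uw` with `u ∈ V_-` and `w ∈ V_+`. -/
def Cut {m d : ℕ} (s : State m d) (κ : s.N → SignType) : Type :=
  {p : s.N × s.N // κ p.1 = -1 ∧ κ p.2 = 1 ∧ s.E p.1 p.2}

/-- Steps (b)-(e) for row `i`, given the choice `κ` in step (a), lead from `s` to `s'`. The nodes of
`s'` are those of `s` outside `V_+` together with one new node for every edge between `V_-` and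
`V_+`. -/
def StepWith {m d : ℕ} (A : Matrix (Fin m) (Fin d) ℝ) (ε : ℝ) (i : Fin m) (s : State m d)
    (κ : s.N → SignType) (s' : State m d) : Prop :=
  ∃ e : {u : s.N // κ u ≠ 1} ⊕ Cut s κ ≃ s'.N,
    (∀ u, s'.c (e (Sum.inl u)) = s.c u.1) ∧
    (∀ u, s'.I (e (Sum.inl u)) = if κ u.1 = 0 then insert i (s.I u.1) else s.I u.1) ∧
    (∀ p, s'.c (e (Sum.inr p)) ∈ segment ℝ (s.c p.1.1) (s.c p.1.2) ∧
      1 ≤ A i ⬝ᵥ s'.c (e (Sum.inr p)) ∧ A i ⬝ᵥ s'.c (e (Sum.inr p)) ≤ 1 + ε) ∧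
    (∀ p, s'.I (e (Sum.inr p)) = insert i (s.I p.1.1 ∩ s.I p.1.2)) ∧
    ∀ x y, s'.E x y ↔ x ≠ y ∧ d - 1 ≤ (s'.I x ∩ s'.I y).card

/-- `Reach A ε i s`: the state `s` is reached by some run after the rows of value `< i` have been
processed (rows are numbered from `0`). -/
inductive Reach {m d : ℕ} (A : Matrix (Fin m) (Fin d) ℝ) (ε : ℝ) : ℕ → State m d → Prop
  | start (s : State m d) (h : IsStart A ε s) : Reach A ε (d + 1) s
  | step (i : ℕ) (hi : i < m) (s s' : State m d) (κ : s.N → SignType) (hs : Reach A ε i s)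
      (hκ : ValidChoice A ε ⟨i, hi⟩ s κ) (h : StepWith A ε ⟨i, hi⟩ s κ s') : Reach A ε (i + 1) s'

/-- The approximate double description method is correct in dimension `d`: for every admissible
input, the start is possible, every step of every run can be carried out whatever choices were
made, and every final state satisfies `P ⊆ conv c(V) ⊆ (1 + ε) P`. -/
def CorrectInDim (d : ℕ) : Prop :=
  ∀ (m : ℕ) (A : Matrix (Fin m) (Fin d) ℝ) (ε : ℝ), d + 1 ≤ m →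
    Bornology.IsBounded (Poly A 1) → IsSimplex (startSet A) → 0 ≤ ε →
    (∃ s, IsStart A ε s) ∧
    (∀ (i : ℕ) (s : State m d), Reach A ε i s → ∀ hi : i < m,
      (∃ κ, ValidChoice A ε ⟨i, hi⟩ s κ) ∧
      ∀ κ, ValidChoice A ε ⟨i, hi⟩ s κ → ∃ s', StepWith A ε ⟨i, hi⟩ s κ s') ∧
    ∀ s : State m d, Reach A ε m s →
      Poly A 1 ⊆ convexHull ℝ (Set.range s.c) ∧ convexHull ℝ (Set.range s.c) ⊆ Poly A (1 + ε)

end Pool.Agent.Helper25.Addm
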