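import Mathlib
import Pool.Agent.Helper25.AddmDefs

/-!
Correctness of the approximate double description method in every dimension.
-/

set_option autoImplicit false

namespace Pool.Agent.Helper25.Addm

open Matrix Finset

/-! ## Cones over generic vectors -/

section cones

variable {m d : ℕ} {A : Matrix (Fin m) (Fin d) ℝ}

/-- `h` has no representation with fewer than `d` rows. -/
def Gen (A : Matrix (Fin m) (Fin d) ℝ) (h : Fin d → ℝ) : Prop :=
  ∀ l : Fin m → ℝ, ∑ k, l k • A k = h → d ≤ (Finset.univ.filter (fun k => l k ≠ 0)).card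

/-- `h` lies in the cone over the rows in `K`. -/
def InCone (A : Matrix (Fin m) (Fin d) ℝ) (K : Finset (Fin m)) (h : Fin d → ℝ) : Prop :=
  ∃ l : Fin m → ℝ, (∀ k, 0 ≤ l k) ∧ (∀ k, k ∉ K → l k = 0) ∧ ∑ k, l k • A k = h

lemma supp_full {h : Fin d → ℝ} (hg : Gen A h) {K : Finset (Fin m)} (hK : K.card = d)
    {l : Fin m → ℝ} (hl : ∀ k, k ∉ K → l k = 0) (hs : ∑ k, l k • A k = h) :
    ∀ k ∈ K, l k ≠ 0 := by
  have h1 := hg l hs
  have h2 : (Finset.univ.filter (fun k => l k ≠ 0)) ⊆ K := by
    intro k hk
    rw [Finset.mem_filter] at hk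
    by_contra hc
    exact hk.2 (hl k hc)
  have h3 := Finset.eq_of_subset_of_card_le h2 (by omega)
  intro k hk
  rw [← h3, Finset.mem_filter] at hk
  exact hk.2

lemma ker_zero {h : Fin d → ℝ} (hg : Gen A h) {K : Finset (Fin m)} (hK : K.card = d)
    {l : Fin m → ℝ} (hl : ∀ k, k ∉ K → l k = 0) (hs : ∑ k, l k • A k = h)
    {ν : Fin m → ℝ} (hν : ∀ k, k ∉ K → ν k = 0) (hν0 : ∑ k, ν k • A k = 0) : ∀ k, ν k = 0 := by
  by_contra hc
  push Not at hc
  obtain ⟨k0, hk0⟩ := hc
  have hk0K : k0 ∈ K := by
    by_contra hc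
    exact hk0 (hν k0 hc)
  have h1 := supp_full hg hK (l := fun k => l k - (l k0 / ν k0) * ν k) (by
    intro k hk
    rw [hl k hk, hν k hk]; ring) (by
    simp_rw [sub_smul, Finset.sum_sub_distrib, hs, mul_smul]
    rw [← Finset.smul_sum, hν0, smul_zero, sub_zero]) k0 hk0K
  apply h1
  field_simp
  ring

lemma exists_ker {T : Finset (Fin m)} (hT : T.card = d + 1) :
    ∃ μ : Fin m → ℝ, (∀ k, k ∉ T → μ k = 0) ∧ ∑ k, μ k • A k = 0 ∧ ∃ k, μ k ≠ 0 := by
  classical
  have hli : ¬ LinearIndependent ℝ (fun k : T => A k.1) := by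
    intro hli
    have := hli.fintype_card_le_finrank
    rw [Fintype.card_coe, hT, Module.finrank_fin_fun] at this
    omega
  rw [Fintype.not_linearIndependent_iff] at hli
  obtain ⟨g, hg, k0, hk0⟩ := hli
  refine ⟨fun k => if hk : k ∈ T then g ⟨k, hk⟩ else 0, ?_, ?_, k0.1, ?_⟩
  · intro k hk
    simp only
    rw [dif_neg hk]
  · rw [← hg, ← Finset.sum_subset (Finset.subset_univ T)]
    · rw [← Finset.sum_coe_sort]
      apply Finset.sum_congr rfl
      intro k _
      simp
    · intro k _ hk
      simp [hk]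
  · simpa using hk0

lemma sum_dot (l : Fin m → ℝ) (x : Fin d → ℝ) : (∑ k, l k • A k) ⬝ᵥ x = ∑ k, l k * (A k ⬝ᵥ x) := by
  rw [sum_dotProduct]
  apply Finset.sum_congr rfl
  intro k _
  rw [smul_dotProduct, smul_eq_mul]

open Classical in
/-- A generic vector lies in an even number of the facet cones of a simplicial cone complex whose
`d + 1` generators are in an open half space. -/
lemma even_cones {h : Fin d → ℝ} (hg : Gen A h) {T : Finset (Fin m)} (hT : T.card = d + 1)
    {x : Fin d → ℝ} (hx : ∀ k ∈ T, 0 < A k ⬝ᵥ x) :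
    ∑ t ∈ T, (if InCone A (T.erase t) h then (1 : ZMod 2) else 0) = 0 := by
  by_cases hex : ∃ t ∈ T, InCone A (T.erase t) h
  swap
  · push Not at hex
    apply Finset.sum_eq_zero
    intro t ht
    rw [if_neg (hex t ht)]
  obtain ⟨t1, ht1, l1, hl1n, hl1s, hl1⟩ := hex
  have hcard : ∀ t ∈ T, (T.erase t).card = d := by
    intro t ht
    rw [Finset.card_erase_of_mem ht, hT]; rfl
  obtain ⟨μ0, hμ0s, hμ0, k0, hk0⟩ := exists_ker (A := A) hT
  have hμt1 : μ0 t1 ≠ 0 := by
    intro hc
    apply hk0
    refine ker_zero hg (hcard t1 ht1) hl1s hl1 ?_ hμ0 k0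
    intro k hk
    by_cases hkt : k = t1
    · rw [hkt]; exact hc
    · apply hμ0s
      intro hkT
      exact hk (Finset.mem_erase.2 ⟨hkt, hkT⟩)
  -- normalise
  set μ : Fin m → ℝ := fun k => μ0 k / μ0 t1 with hμdef
  have hμs : ∀ k, k ∉ T → μ k = 0 := by
    intro k hk
    simp only [hμdef]
    rw [hμ0s k hk, zero_div]
  have hμ1 : μ t1 = 1 := by
    simp only [hμdef]
    exact div_self hμt1
  have hμ : ∑ k, μ k • A k = 0 := by
    have : ∑ k, μ k • A k = (μ0 t1)⁻¹ • ∑ k, μ0 k • A k := by
      rw [Finset.smul_sum]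
      apply Finset.sum_congr rfl
      intro k _
      rw [smul_smul]
      congr 1
      simp only [hμdef]
      field_simp
    rw [this, hμ0, smul_zero]
  -- every representation supported on T is on the line
  have hline : ∀ l : Fin m → ℝ, (∀ k, k ∉ T → l k = 0) → ∑ k, l k • A k = h →
      ∀ k, l k = l1 k + l t1 * μ k := by
    intro l hls hl k
    have hl1t1 : l1 t1 = 0 := hl1s t1 (Finset.notMem_erase t1 T)
    have := ker_zero hg (hcard t1 ht1) hl1s hl1 (ν := fun k => l k - l1 k - l t1 * μ k) (by
      intro k hk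
      by_cases hkt : k = t1
      · rw [hkt, hμ1, hl1t1]; ring
      · have hkT : k ∉ T := fun hkT => hk (Finset.mem_erase.2 ⟨hkt, hkT⟩)
        rw [hls k hkT, hl1s k hk, hμs k hkT]; ring) (by
      simp_rw [sub_smul, Finset.sum_sub_distrib, hl, hl1, mul_smul]
      rw [← Finset.smul_sum, hμ, smul_zero]; simp) k
    linarith
  have hl1pos : ∀ k ∈ T.erase t1, 0 < l1 k := fun k hk =>
    lt_of_le_of_ne (hl1n k) (Ne.symm (supp_full hg (hcard t1 ht1) hl1s hl1 k hk))
  -- some coordinate of μ is negative
  have hneg : (T.filter (fun k => μ k < 0)).Nonempty := by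
    by_contra hc
    rw [Finset.not_nonempty_iff_eq_empty, Finset.filter_eq_empty_iff] at hc
    push Not at hc
    have h1 := sum_dot (A := A) μ x
    rw [hμ, zero_dotProduct] at h1
    have h2 : 0 < ∑ k, μ k * (A k ⬝ᵥ x) := by
      apply Finset.sum_pos'
      · intro k _
        by_cases hkT : k ∈ T
        · exact mul_nonneg (hc hkT) (hx k hkT).le
        · rw [hμs k hkT, zero_mul]
      · refine ⟨t1, Finset.mem_univ _, ?_⟩
        rw [hμ1, one_mul]
        exact hx t1 ht1
    linarith
  obtain ⟨t2, ht2, hmin⟩ := Finset.exists_min_image _ (fun k => l1 k / (- μ k)) hneg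
  rw [Finset.mem_filter] at ht2
  have ht21 : t2 ≠ t1 := by
    rintro rfl
    rw [hμ1] at ht2
    linarith [ht2.2]
  set s := l1 t2 / (- μ t2) with hs
  have hspos : 0 < s := div_pos (hl1pos t2 (Finset.mem_erase.2 ⟨ht21, ht2.1⟩)) (by linarith [ht2.2])
  set l2 : Fin m → ℝ := fun k => l1 k + s * μ k with hl2def
  have hl2sum : ∑ k, l2 k • A k = h := by
    simp_rw [hl2def, add_smul, Finset.sum_add_distrib, mul_smul]
    rw [← Finset.smul_sum, hμ, smul_zero, add_zero, hl1]
  have hl2t2 : l2 t2 = 0 := by
    simp only [hl2def, hs]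
    have : μ t2 ≠ 0 := by linarith [ht2.2]
    field_simp
    ring
  have hl2n : ∀ k, 0 ≤ l2 k := by
    intro k
    simp only [hl2def]
    by_cases hkT : k ∈ T
    · by_cases hk : μ k < 0
      · have := hmin k (Finset.mem_filter.2 ⟨hkT, hk⟩)
        rw [le_div_iff₀ (by linarith)] at this
        change s * (- μ k) ≤ l1 k at this
        linarith
      · push Not at hk
        have := hl1n k
        have := mul_nonneg hspos.le hk
        linarith
    · rw [hμs k hkT]
      have := hl1n k
      linarith
  have hl2supp : ∀ k, k ∉ T → l2 k = 0 := by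
    intro k hk
    simp only [hl2def]
    rw [hμs k hk, hl1s k (fun hc => hk (Finset.mem_of_mem_erase hc))]; ring
  have hcone2 : InCone A (T.erase t2) h := by
    refine ⟨l2, hl2n, ?_, hl2sum⟩
    intro k hk
    by_cases hkt : k = t2
    · rw [hkt]; exact hl2t2
    · exact hl2supp k (fun hkT => hk (Finset.mem_erase.2 ⟨hkt, hkT⟩))
  -- no other
  have hother : ∀ t ∈ T, InCone A (T.erase t) h → t = t1 ∨ t = t2 := by
    intro t ht hcone
    by_contra hc
    push Not at hc
    obtain ⟨l3, hl3n, hl3s, hl3⟩ := hcone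
    have hl3T : ∀ k, k ∉ T → l3 k = 0 := fun k hk => hl3s k (fun hc => hk (Finset.mem_of_mem_erase hc))
    have hl3line := hline l3 hl3T hl3
    have hl3t : l3 t = 0 := hl3s t (Finset.notMem_erase t T)
    have h1 : 0 < l1 t := hl1pos t (Finset.mem_erase.2 ⟨hc.1, ht⟩)
    have h2 := hl3line t
    rw [hl3t] at h2
    have h3 : 0 ≤ l3 t1 := hl3n t1
    have h4 : μ t < 0 := by
      by_contra hcc
      push Not at hcc
      have := mul_nonneg h3 hcc
      linarith
    have h5 := hmin t (Finset.mem_filter.2 ⟨ht, h4⟩)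
    rw [le_div_iff₀ (by linarith)] at h5
    change s * (- μ t) ≤ l1 t at h5
    -- l3 t1 ≥ s
    have h6 : s ≤ l3 t1 := by nlinarith
    have h7 := hl3line t2
    have h8 := hl3n t2
    rw [h7] at h8
    have h9 : l3 t1 ≤ s := by
      rw [hs, le_div_iff₀ (by linarith [ht2.2])]
      linarith
    have h10 : l3 t1 = s := le_antisymm h9 h6
    have h11 : l2 t = 0 := by
      simp only [hl2def]
      rw [← h10]
      exact h2.symm
    have h12 := supp_full hg (hcard t2 ht2.1) (l := l2) (by
      intro k hk
      by_cases hkt : k = t2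
      · rw [hkt]; exact hl2t2
      · exact hl2supp k (fun hkT => hk (Finset.mem_erase.2 ⟨hkt, hkT⟩))) hl2sum t
      (Finset.mem_erase.2 ⟨hc.2, ht⟩)
    exact h12 h11
  have hfilter : T.filter (fun t => InCone A (T.erase t) h) = {t1, t2} := by
    ext t
    rw [Finset.mem_filter, Finset.mem_insert, Finset.mem_singleton]
    constructor
    · rintro ⟨ht, hc⟩
      exact hother t ht hc
    · rintro (rfl | rfl)
      · exact ⟨ht1, l1, hl1n, hl1s, hl1⟩
      · exact ⟨ht2.1, hcone2⟩
  rw [← Finset.sum_filter, hfilter, Finset.sum_pair ht21.symm]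
  decide

open Classical in
/-- A generic vector lies in exactly one of the facet cones of a complete simplicial fan with
`d + 1` generators. -/
lemma odd_cones {h : Fin d → ℝ} (hg : Gen A h) {T : Finset (Fin m)} (hT : T.card = d + 1)
    {μ : Fin m → ℝ} (hμs : ∀ k, k ∉ T → μ k = 0) (hμpos : ∀ k ∈ T, 0 < μ k)
    (hμ : ∑ k, μ k • A k = 0) {l0 : Fin m → ℝ} (hl0s : ∀ k, k ∉ T → l0 k = 0)
    (hl0 : ∑ k, l0 k • A k = h) :
    ∑ t ∈ T, (if InCone A (T.erase t) h then (1 : ZMod 2) else 0) = 1 := by
  have hcard : ∀ t ∈ T, (T.erase t).card = d := by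
    intro t ht
    rw [Finset.card_erase_of_mem ht, hT]; rfl
  have hTne : T.Nonempty := by
    rw [← Finset.card_pos]; omega
  obtain ⟨t1, ht1, hmin⟩ := Finset.exists_min_image T (fun k => l0 k / μ k) hTne
  set s := l0 t1 / μ t1 with hs
  set l1 : Fin m → ℝ := fun k => l0 k - s * μ k with hl1def
  have hl1sum : ∑ k, l1 k • A k = h := by
    simp_rw [hl1def, sub_smul, Finset.sum_sub_distrib, mul_smul]
    rw [← Finset.smul_sum, hμ, smul_zero, sub_zero, hl0]
  have hl1t1 : l1 t1 = 0 := by
    simp only [hl1def, hs]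
    have := hμpos t1 ht1
    field_simp
    ring
  have hl1T : ∀ k, k ∉ T → l1 k = 0 := by
    intro k hk
    simp only [hl1def]
    rw [hμs k hk, hl0s k hk]; ring
  have hl1n : ∀ k, 0 ≤ l1 k := by
    intro k
    by_cases hkT : k ∈ T
    · have := hmin k hkT
      rw [le_div_iff₀ (hμpos k hkT)] at this
      simp only [hl1def]
      change s * μ k ≤ l0 k at this
      linarith
    · rw [hl1T k hkT]
  have hl1s : ∀ k, k ∉ T.erase t1 → l1 k = 0 := by
    intro k hk
    by_cases hkt : k = t1
    · rw [hkt]; exact hl1t1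
    · exact hl1T k (fun hkT => hk (Finset.mem_erase.2 ⟨hkt, hkT⟩))
  have hother : ∀ t ∈ T, InCone A (T.erase t) h → t = t1 := by
    intro t ht hcone
    by_contra hc
    obtain ⟨l3, hl3n, hl3s, hl3⟩ := hcone
    have hl3T : ∀ k, k ∉ T → l3 k = 0 := fun k hk => hl3s k (fun hc => hk (Finset.mem_of_mem_erase hc))
    have hμt1 := hμpos t1 ht1
    have hline : ∀ k, l3 k - l1 k - (l3 t1 / μ t1) * μ k = 0 :=
      ker_zero hg (hcard t1 ht1) hl1s hl1sum (by
        intro k hk
        by_cases hkt : k = t1
        · rw [hkt, hl1t1]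
          field_simp
          ring
        · have hkT : k ∉ T := fun hkT => hk (Finset.mem_erase.2 ⟨hkt, hkT⟩)
          rw [hl3T k hkT, hl1s k hk, hμs k hkT]; ring) (by
        simp_rw [sub_smul, Finset.sum_sub_distrib, hl3, hl1sum, mul_smul]
        rw [← Finset.smul_sum, hμ, smul_zero]; simp)
    have hl3t : l3 t = 0 := hl3s t (Finset.notMem_erase t T)
    have h1 : 0 < l1 t := lt_of_le_of_ne (hl1n t)
      (Ne.symm (supp_full hg (hcard t1 ht1) hl1s hl1sum t (Finset.mem_erase.2 ⟨hc, ht⟩)))
    have h2 := hline t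
    rw [hl3t] at h2
    have h3 : 0 ≤ (l3 t1 / μ t1) * μ t :=
      mul_nonneg (div_nonneg (hl3n t1) hμt1.le) (hμpos t ht).le
    linarith
  have hfilter : T.filter (fun t => InCone A (T.erase t) h) = {t1} := by
    ext t
    rw [Finset.mem_filter, Finset.mem_singleton]
    constructor
    · rintro ⟨ht, hc⟩
      exact hother t ht hc
    · rintro rfl
      exact ⟨ht1, l1, hl1n, hl1s, hl1sum⟩
  rw [← Finset.sum_filter, hfilter, Finset.sum_singleton]

end cones

/-! ## Mod 2 chains on the index set -/

section chains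

variable {m : ℕ}

/-- the boundary of a mod 2 chain -/
def bd (n : Finset (Fin m) → ZMod 2) (K : Finset (Fin m)) : ZMod 2 := ∑ l ∈ Kᶜ, n (insert l K)

/-- the new chain after the row `i` has been processed -/
def nxt (i : Fin m) (n : Finset (Fin m) → ZMod 2) (K : Finset (Fin m)) : ZMod 2 :=
  if i ∈ K then bd n (K.erase i) else n K

lemma add_self_zmod (a : ZMod 2) : a + a = 0 := by
  revert a; decide

lemma bd_nxt (i : Fin m) (n : Finset (Fin m) → ZMod 2) (hn : ∀ K, i ∈ K → n K = 0)
    (K : Finset (Fin m)) : bd (nxt i n) K = 0 := by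
  by_cases hi : i ∈ K
  · have h1 : ∀ l ∈ Kᶜ, nxt i n (insert l K)
        = ∑ l' ∈ Kᶜ.erase l, n (insert l' (insert l (K.erase i))) := by
      intro l hl
      rw [Finset.mem_compl] at hl
      have hli : l ≠ i := fun h => hl (h ▸ hi)
      unfold nxt
      rw [if_pos (Finset.mem_insert_of_mem hi), Finset.erase_insert_of_ne hli]
      unfold bd
      symm
      apply Finset.sum_subset
      · intro l' hl'
        rw [Finset.mem_erase, Finset.mem_compl] at hl'
        rw [Finset.mem_compl, Finset.mem_insert, Finset.mem_erase]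
        tauto
      · intro l' hl' hl''
        rw [Finset.mem_compl, Finset.mem_insert, Finset.mem_erase] at hl'
        rw [Finset.mem_erase, Finset.mem_compl] at hl''
        have : l' = i := by
          by_contra hc
          tauto
        rw [this]
        exact hn _ (Finset.mem_insert_self _ _)
    unfold bd
    rw [Finset.sum_congr rfl h1]
    have h2 : ∀ l ∈ Kᶜ, ∑ l' ∈ Kᶜ.erase l, n (insert l' (insert l (K.erase i)))
        = ∑ l' ∈ Kᶜ, if l ≠ l' then n (insert l' (insert l (K.erase i))) else 0 := by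
      intro l _
      rw [← Finset.sum_filter]
      congr 1
      ext l'
      simp only [Finset.mem_erase, Finset.mem_filter]
      tauto
    rw [Finset.sum_congr rfl h2, ← Finset.sum_product', ← Finset.sum_filter]
    apply Finset.sum_involution (fun x _ => (x.2, x.1))
    · intro x _
      rw [Finset.insert_comm]
      exact add_self_zmod _
    · intro x hx _ hc
      rw [Finset.mem_filter] at hx
      exact hx.2 (congrArg Prod.snd hc)
    · intro x hx
      rw [Finset.mem_filter, Finset.mem_product] at hx ⊢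
      exact ⟨⟨hx.1.2, hx.1.1⟩, Ne.symm hx.2⟩
    · intro x _
      rfl
  · have h1 : ∀ l ∈ Kᶜ, nxt i n (insert l K) = (if l = i then bd n K else 0) + n (insert l K) := by
      intro l hl
      by_cases hli : l = i
      · rw [if_pos hli, hli]
        unfold nxt
        rw [if_pos (Finset.mem_insert_self _ _), Finset.erase_insert hi,
          hn _ (Finset.mem_insert_self _ _), add_zero]
      · rw [if_neg hli, zero_add]
        unfold nxt
        rw [if_neg]
        rw [Finset.mem_insert]
        rintro (h | h)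
        · exact hli h.symm
        · exact hi h
    unfold bd at h1 ⊢
    rw [Finset.sum_congr rfl h1, Finset.sum_add_distrib, Finset.sum_ite_eq',
      if_pos (Finset.mem_compl.2 hi)]
    exact add_self_zmod _

/-- the sum over the facets of the cone with apex `i` over `L` -/
def bsum (i : Fin m) (χ : Finset (Fin m) → ZMod 2) (L : Finset (Fin m)) : ZMod 2 :=
  ∑ t ∈ insert i L, χ ((insert i L).erase t)

lemma sum_nxt (i : Fin m) (n : Finset (Fin m) → ZMod 2) (hn : ∀ K, i ∈ K → n K = 0)
    (χ : Finset (Fin m) → ZMod 2) : ∑ K, nxt i n K * χ K = ∑ L, n L * bsum i χ L := by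
  classical
  have h1 : ∑ K, nxt i n K * χ K
      = (∑ K ∈ Finset.univ.filter (fun K => i ∈ K), bd n (K.erase i) * χ K)
        + ∑ K ∈ Finset.univ.filter (fun K => i ∉ K), n K * χ K := by
    rw [← Finset.sum_filter_add_sum_filter_not Finset.univ (fun K : Finset (Fin m) => i ∈ K)]
    congr 1
    · apply Finset.sum_congr rfl
      intro K hK
      rw [Finset.mem_filter] at hK
      unfold nxt
      rw [if_pos hK.2]
    · apply Finset.sum_congr rfl
      intro K hK
      rw [Finset.mem_filter] at hK
      unfold nxt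
      rw [if_neg hK.2]
  have h2 : ∑ L, n L * bsum i χ L
      = (∑ L ∈ Finset.univ.filter (fun L => i ∉ L), ∑ t ∈ L, n L * χ (insert i (L.erase t)))
        + ∑ L ∈ Finset.univ.filter (fun L => i ∉ L), n L * χ L := by
    rw [← Finset.sum_add_distrib]
    symm
    have h3 : ∀ L ∈ (Finset.univ : Finset (Finset (Fin m))),
        L ∉ Finset.univ.filter (fun L => i ∉ L) → n L * bsum i χ L = 0 := by
      intro L _ hL
      rw [Finset.mem_filter] at hL
      push Not at hL
      rw [hn L (hL (Finset.mem_univ _)), zero_mul]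
    rw [← Finset.sum_subset (Finset.filter_subset _ _) h3]
    apply Finset.sum_congr rfl
    intro L hL
    rw [Finset.mem_filter] at hL
    unfold bsum
    rw [Finset.sum_insert hL.2, Finset.erase_insert hL.2, mul_add, add_comm, Finset.mul_sum]
    congr 1
    apply Finset.sum_congr rfl
    intro t ht
    have hti : i ≠ t := by
      rintro rfl
      exact hL.2 ht
    rw [Finset.erase_insert_of_ne hti]
  rw [h1, h2]
  congr 1
  have h4 : ∀ K ∈ Finset.univ.filter (fun K => i ∈ K), bd n (K.erase i) * χ K
      = ∑ l ∈ Kᶜ, n (insert l (K.erase i)) * χ K := by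
    intro K hK
    rw [Finset.mem_filter] at hK
    rw [← Finset.sum_mul]
    congr 1
    unfold bd
    symm
    apply Finset.sum_subset
    · intro l hl
      rw [Finset.mem_compl] at hl ⊢
      rw [Finset.mem_erase]
      tauto
    · intro l hl hl'
      rw [Finset.mem_compl, Finset.mem_erase] at hl
      rw [Finset.mem_compl] at hl'
      have : l = i := by
        by_contra hc
        tauto
      rw [this]
      exact hn _ (Finset.mem_insert_self _ _)
  rw [Finset.sum_congr rfl h4, Finset.sum_sigma', Finset.sum_sigma']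
  refine Finset.sum_bij' (fun x _ => ⟨insert x.2 (x.1.erase i), x.2⟩)
    (fun y _ => ⟨insert i (y.1.erase y.2), y.2⟩) ?_ ?_ ?_ ?_ ?_
  · rintro ⟨K, l⟩ hx
    simp only [Finset.mem_sigma, Finset.mem_filter, Finset.mem_univ, true_and,
      Finset.mem_compl] at hx ⊢
    have hli : i ≠ l := fun h => hx.2 (h ▸ hx.1)
    simp [hli]
  · rintro ⟨L, t⟩ hy
    simp only [Finset.mem_sigma, Finset.mem_filter, Finset.mem_univ, true_and,
      Finset.mem_compl] at hy ⊢
    have hti : t ≠ i := fun h => hy.1 (h ▸ hy.2)
    simp [hti]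
  · rintro ⟨K, l⟩ hx
    simp only [Finset.mem_sigma, Finset.mem_filter, Finset.mem_univ, true_and,
      Finset.mem_compl] at hx
    simp only [Sigma.mk.injEq, heq_eq_eq, and_true]
    rw [Finset.erase_insert (fun h => hx.2 (Finset.mem_of_mem_erase h)), Finset.insert_erase hx.1]
  · rintro ⟨L, t⟩ hy
    simp only [Finset.mem_sigma, Finset.mem_filter, Finset.mem_univ, true_and] at hy
    simp only [Sigma.mk.injEq, heq_eq_eq, and_true]
    rw [Finset.erase_insert (fun h => hy.1 (Finset.mem_of_mem_erase h)), Finset.insert_erase hy.2]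
  · rintro ⟨K, l⟩ hx
    simp only [Finset.mem_sigma, Finset.mem_filter, Finset.mem_univ, true_and,
      Finset.mem_compl] at hx
    simp only
    rw [Finset.erase_insert (fun h => hx.2 (Finset.mem_of_mem_erase h)), Finset.insert_erase hx.1]

/-- a cycle has the same pairing with `χ` and with `bsum i χ` -/
lemma sum_cycle {d : ℕ} (i : Fin m) (n : Finset (Fin m) → ZMod 2) (hn : ∀ K, i ∈ K → n K = 0)
    (hcard : ∀ K, n K ≠ 0 → K.card = d) (hc : ∀ K, K.card + 1 = d → bd n K = 0)
    (χ : Finset (Fin m) → ZMod 2) : ∑ K, n K * χ K = ∑ L, n L * bsum i χ L := by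
  rw [← sum_nxt i n hn]
  apply Finset.sum_congr rfl
  intro K _
  unfold nxt
  split_ifs with hi
  · rw [hn K hi, zero_mul]
    by_cases hK : (K.erase i).card + 1 = d
    · rw [hc _ hK, zero_mul]
    · have : bd n (K.erase i) = 0 := by
        unfold bd
        apply Finset.sum_eq_zero
        intro l hl
        rw [Finset.mem_compl] at hl
        by_contra hne
        apply hK
        rw [← hcard _ hne, Finset.card_insert_of_notMem hl]
      rw [this, zero_mul]
  · rfl

end chains

/-! ## The start simplex -/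

section start

variable {m d : ℕ} {A : Matrix (Fin m) (Fin d) ℝ}

lemma card_firstRows (hm : d + 1 ≤ m) : (firstRows m d).card = d + 1 := by
  unfold firstRows
  rw [Fin.card_filter_val_lt]
  exact min_eq_right hm

lemma no_recession (hb : Bornology.IsBounded (startSet A)) (x : Fin d → ℝ)
    (hx : ∀ k ∈ firstRows m d, A k ⬝ᵥ x ≤ 0) : x = 0 := by
  by_contra hne
  obtain ⟨R, hR⟩ := hb.exists_norm_le
  have hR0 : 0 ≤ R := by
    have h0 : (0 : Fin d → ℝ) ∈ startSet A := by
      intro k _
      rw [dotProduct_zero]; norm_num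
    exact (norm_nonneg _).trans (hR 0 h0)
  have hxn : 0 < ‖x‖ := norm_pos_iff.2 hne
  have hmem : ((R + 1) / ‖x‖) • x ∈ startSet A := by
    intro k hk
    rw [dotProduct_smul, smul_eq_mul]
    have h1 := hx k hk
    have h2 : 0 ≤ (R + 1) / ‖x‖ := by positivity
    nlinarith
  have h3 := hR _ hmem
  rw [norm_smul, Real.norm_eq_abs, abs_of_nonneg (by positivity), div_mul_cancel₀ _ hxn.ne'] at h3
  linarith

/-- the row map restricted to `K` -/
def rowMap (A : Matrix (Fin m) (Fin d) ℝ) (K : Finset (Fin m)) : (Fin d → ℝ) →ₗ[ℝ] (K → ℝ) where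
  toFun x k := A k.1 ⬝ᵥ x
  map_add' x y := by
    ext k
    simp [dotProduct_add]
  map_smul' c x := by
    ext k
    simp [dotProduct_smul]

lemma pos_kernel (hm : d + 1 ≤ m) (hb : Bornology.IsBounded (startSet A)) :
    ∃ μ : Fin m → ℝ, (∀ k, k ∉ firstRows m d → μ k = 0) ∧ (∀ k ∈ firstRows m d, 0 < μ k) ∧
      ∑ k, μ k • A k = 0 := by
  classical
  set F := firstRows m d with hF
  have hcard : F.card = d + 1 := card_firstRows hm
  obtain ⟨μ0, hμ0s, hμ0, k0, hk0⟩ := exists_ker (A := A) hcard
  have hk0F : k0 ∈ F := by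
    by_contra hc
    exact hk0 (hμ0s k0 hc)
  -- sign normalisation
  obtain ⟨μ, hμs, hμ, t2, ht2F, ht2⟩ : ∃ μ : Fin m → ℝ, (∀ k, k ∉ F → μ k = 0) ∧
      ∑ k, μ k • A k = 0 ∧ ∃ t2 ∈ F, 0 < μ t2 := by
    rcases lt_or_gt_of_ne hk0 with h | h
    · refine ⟨fun k => - μ0 k, ?_, ?_, k0, hk0F, by linarith⟩
      · intro k hk
        simp [hμ0s k hk]
      · simp_rw [neg_smul, Finset.sum_neg_distrib]
        rw [hμ0, neg_zero]
    · exact ⟨μ0, hμ0s, hμ0, k0, hk0F, h⟩
  refine ⟨μ, hμs, ?_, hμ⟩
  by_contra hc
  push Not at hc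
  obtain ⟨t1, ht1F, ht1⟩ := hc
  have ht12 : t1 ≠ t2 := by
    rintro rfl
    linarith
  -- the functional
  let φ : (F → ℝ) →ₗ[ℝ] ℝ := 
    { toFun := fun y => ∑ k : F, μ k.1 * y k
      map_add' := by
        intro x y
        rw [← Finset.sum_add_distrib]
        apply Finset.sum_congr rfl
        intro k _
        simp only [Pi.add_apply]
        ring
      map_smul' := by
        intro c x
        simp only [Pi.smul_apply, smul_eq_mul, RingHom.id_apply]
        rw [Finset.mul_sum]
        apply Finset.sum_congr rfl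
        intro k _
        ring }
  have hφ : φ ≠ 0 := by
    intro h0
    have h1 := LinearMap.congr_fun h0 (Pi.single ⟨t2, ht2F⟩ 1)
    have h2 : φ (Pi.single ⟨t2, ht2F⟩ 1) = μ t2 := by
      change ∑ k : F, μ k.1 * (Pi.single ⟨t2, ht2F⟩ (1 : ℝ) : F → ℝ) k = μ t2
      rw [Finset.sum_eq_single (⟨t2, ht2F⟩ : F)]
      · simp
      · intro b _ hb
        simp [hb]
      · intro h; exact absurd (Finset.mem_univ _) h
    rw [h2] at h1
    simp at h1
    linarith
  have hinj : Function.Injective (rowMap A F) := by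
    rw [← LinearMap.ker_eq_bot, LinearMap.ker_eq_bot']
    intro x hx
    apply no_recession hb
    intro k hk
    have := congrFun hx ⟨k, hk⟩
    change A k ⬝ᵥ x = 0 at this
    exact this.le
  have hle : LinearMap.range (rowMap A F) ≤ LinearMap.ker φ := by
    rintro y ⟨x, rfl⟩
    rw [LinearMap.mem_ker]
    change ∑ k : F, μ k.1 * (A k.1 ⬝ᵥ x) = 0
    have h1 := sum_dot (A := A) μ x
    rw [hμ, zero_dotProduct] at h1
    rw [Finset.sum_coe_sort F (fun k => μ k * (A k ⬝ᵥ x)), h1]
    apply Finset.sum_subset (Finset.subset_univ F)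
    intro k _ hk
    rw [hμs k hk, zero_mul]
  have heq : LinearMap.range (rowMap A F) = LinearMap.ker φ := by
    apply Submodule.eq_of_le_of_finrank_eq hle
    rw [LinearMap.finrank_range_of_inj hinj, Module.finrank_fin_fun]
    have h1 := Module.Dual.finrank_ker_add_one_of_ne_zero (f := φ) hφ
    rw [Module.finrank_fintype_fun_eq_card, Fintype.card_coe, hcard] at h1
    omega
  have hy : (Pi.single ⟨t1, ht1F⟩ (- μ t2) + Pi.single ⟨t2, ht2F⟩ (μ t1) : F → ℝ)
      ∈ LinearMap.ker φ := by
    rw [LinearMap.mem_ker, map_add]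
    have h2 : ∀ (t : Fin m) (ht : t ∈ F) (a : ℝ), φ (Pi.single ⟨t, ht⟩ a) = μ t * a := by
      intro t ht a
      change ∑ k : F, μ k.1 * (Pi.single ⟨t, ht⟩ a : F → ℝ) k = μ t * a
      rw [Finset.sum_eq_single (⟨t, ht⟩ : F)]
      · simp
      · intro b _ hb
        simp [hb]
      · intro h; exact absurd (Finset.mem_univ _) h
    rw [h2, h2]
    ring
  rw [← heq] at hy
  obtain ⟨x, hx⟩ := hy
  have hxk : ∀ k (hk : k ∈ F), A k ⬝ᵥ x
      = (Pi.single ⟨t1, ht1F⟩ (- μ t2) + Pi.single ⟨t2, ht2F⟩ (μ t1) : F → ℝ) ⟨k, hk⟩ :=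
    fun k hk => congrFun hx ⟨k, hk⟩
  have hx0 : x = 0 := by
    apply no_recession hb
    intro k hk
    rw [hxk k hk, Pi.add_apply]
    by_cases h1 : k = t1
    · subst h1
      rw [Pi.single_eq_same, Pi.single_eq_of_ne (by simpa using ht12)]
      linarith
    · rw [Pi.single_eq_of_ne (by simpa using h1), zero_add]
      by_cases h2 : k = t2
      · subst h2
        rw [Pi.single_eq_same]
        exact ht1
      · rw [Pi.single_eq_of_ne (by simpa using h2)]
  have h1 := hxk t1 ht1F
  rw [hx0, dotProduct_zero, Pi.add_apply, Pi.single_eq_same,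
    Pi.single_eq_of_ne (by simpa using ht12), add_zero] at h1
  linarith

lemma exists_repr (hb : Bornology.IsBounded (startSet A)) (h : Fin d → ℝ) :
    ∃ l : Fin m → ℝ, (∀ k, k ∉ firstRows m d → l k = 0) ∧ ∑ k, l k • A k = h := by
  classical
  set F := firstRows m d with hF
  have hspan : h ∈ Submodule.span ℝ (Set.range (fun k : F => A k.1)) := by
    by_contra hc
    obtain ⟨f, hf, hle⟩ := Submodule.exists_le_ker_of_notMem hc
    set x : Fin d → ℝ := fun i => f (Pi.single i 1) with hx
    have hfx : ∀ v : Fin d → ℝ, f v = v ⬝ᵥ x := by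
      intro v
      have h1 : v = ∑ i, v i • (Pi.single i (1 : ℝ) : Fin d → ℝ) := by
        ext j
        simp [Finset.sum_apply, Pi.single_apply]
      conv_lhs => rw [h1]
      rw [map_sum]
      simp only [map_smul, smul_eq_mul, dotProduct, hx]
    have hx0 : x = 0 := by
      apply no_recession hb
      intro k hk
      have h2 : A k ∈ LinearMap.ker f := hle (Submodule.subset_span ⟨⟨k, hk⟩, rfl⟩)
      rw [LinearMap.mem_ker, hfx] at h2
      exact h2.le
    apply hf
    rw [hfx, hx0, dotProduct_zero]
  rw [Submodule.mem_span_range_iff_exists_fun] at hspan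
  obtain ⟨c, hc⟩ := hspan
  refine ⟨fun k => if hk : k ∈ F then c ⟨k, hk⟩ else 0, ?_, ?_⟩
  · intro k hk
    simp [hk]
  · rw [← hc, ← Finset.sum_subset (Finset.subset_univ F)]
    · rw [← Finset.sum_coe_sort]
      apply Finset.sum_congr rfl
      intro k _
      simp
    · intro k _ hk
      simp [hk]

lemma bounded_of_simplex (hS : IsSimplex (startSet A)) : Bornology.IsBounded (startSet A) := by
  obtain ⟨w, -, hw⟩ := hS
  rw [hw, isBounded_convexHull]
  exact (Set.finite_range w).isBounded

/-- existence of the vertices of the start simplex -/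
lemma exists_vertex (hm : d + 1 ≤ m) (hb : Bornology.IsBounded (startSet A)) {r : ℝ} (hr : 0 < r)
    {j : Fin m} (hj : j ∈ firstRows m d) :
    ∃ x : Fin d → ℝ, (∀ k ∈ (firstRows m d).erase j, A k ⬝ᵥ x = r) ∧
      ∀ k ∈ firstRows m d, A k ⬝ᵥ x ≤ r := by
  classical
  obtain ⟨μ, hμs, hμpos, hμ⟩ := pos_kernel hm hb
  set F := firstRows m d with hF
  have hcard : F.card = d + 1 := card_firstRows hm
  have hker : ∀ x : Fin d → ℝ, μ j * (A j ⬝ᵥ x) + ∑ k ∈ F.erase j, μ k * (A k ⬝ᵥ x) = 0 := by
    intro x
    have h1 := sum_dot (A := A) μ x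
    rw [hμ, zero_dotProduct] at h1
    rw [Finset.add_sum_erase F (fun k => μ k * (A k ⬝ᵥ x)) hj, h1]
    apply Finset.sum_subset (Finset.subset_univ F)
    intro k _ hk
    rw [hμs k hk, zero_mul]
  have hinj : Function.Injective (rowMap A (F.erase j)) := by
    rw [← LinearMap.ker_eq_bot, LinearMap.ker_eq_bot']
    intro x hx
    have h0 : ∀ k ∈ F.erase j, A k ⬝ᵥ x = 0 := fun k hk => congrFun hx ⟨k, hk⟩
    apply no_recession hb
    intro k hk
    by_cases hkj : k = j
    · subst hkj
      have h1 := hker x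
      rw [Finset.sum_eq_zero (fun k hk => by rw [h0 k hk, mul_zero]), add_zero] at h1
      have h2 := hμpos k hj
      rcases mul_eq_zero.1 h1 with h3 | h3
      · linarith
      · exact h3.le
    · exact (h0 k (Finset.mem_erase.2 ⟨hkj, hk⟩)).le
  have hsurj : Function.Surjective (rowMap A (F.erase j)) := by
    rw [← LinearMap.injective_iff_surjective_of_finrank_eq_finrank]
    · exact hinj
    · rw [Module.finrank_fin_fun, Module.finrank_fintype_fun_eq_card, Fintype.card_coe,
        Finset.card_erase_of_mem hj, hcard]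
      rfl
  obtain ⟨x, hx⟩ := hsurj (fun _ => r)
  have h0 : ∀ k ∈ F.erase j, A k ⬝ᵥ x = r := fun k hk => congrFun hx ⟨k, hk⟩
  refine ⟨x, h0, ?_⟩
  intro k hk
  by_cases hkj : k = j
  · subst hkj
    have h1 := hker x
    have h2 : 0 ≤ ∑ k' ∈ F.erase k, μ k' * (A k' ⬝ᵥ x) := by
      apply Finset.sum_nonneg
      intro k' hk'
      rw [h0 k' hk']
      exact mul_nonneg (hμpos k' (Finset.mem_of_mem_erase hk')).le hr.le
    have h3 := hμpos k hj
    by_contra hc
    push Not at hc
    have h4 : 0 < μ k * (A k ⬝ᵥ x) := mul_pos h3 (lt_trans hr hc)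
    linarith
  · exact (h0 k (Finset.mem_erase.2 ⟨hkj, hk⟩)).le

end start

/-! ## The invariant -/

section invariant

variable {m d : ℕ} {A : Matrix (Fin m) (Fin d) ℝ} {ε : ℝ}

open Classical in
/-- The invariant of the algorithm. -/
structure Inv (A : Matrix (Fin m) (Fin d) ℝ) (ε : ℝ) (i : ℕ) (s : State m d) : Prop where
  up : ∀ u k, k.val < i → A k ⬝ᵥ s.c u ≤ 1 + ε
  low : ∀ u, ∀ k ∈ s.I u, 1 ≤ A k ⬝ᵥ s.c u
  lt : ∀ u, ∀ k ∈ s.I u, k.val < i
  edge : ∀ u w, s.E u w ↔ u ≠ w ∧ d - 1 ≤ (s.I u ∩ s.I w).card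
  chain : ∃ n : Finset (Fin m) → ZMod 2,
    (∀ K, n K ≠ 0 → K.card = d ∧ ∃ u, K ⊆ s.I u) ∧
    (∀ K, K.card + 1 = d → bd n K = 0) ∧
    (∀ h, Gen A h → ∑ K, n K * (if InCone A K h then 1 else 0) = 1)

lemma inv_start (hm : d + 1 ≤ m) (hb : Bornology.IsBounded (startSet A)) (hε : 0 ≤ ε)
    {s : State m d} (hs : IsStart A ε s) : Inv A ε (d + 1) s := by
  classical
  set F := firstRows m d with hF
  have hs' : ∃ e : s.N ≃ {j // j ∈ F},
    (∀ u, s.I u = F.erase (e u)) ∧
    (∀ u, ∀ k ∈ s.I u, A k ⬝ᵥ s.c u = 1 + ε / 2) ∧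
    (∀ u, ∀ k ∈ F, A k ⬝ᵥ s.c u ≤ 1 + ε / 2) ∧
    ∀ u w, s.E u w ↔ u ≠ w := hs
  obtain ⟨e, hI, heq, hle, hE⟩ := hs'
  have hcard : F.card = d + 1 := card_firstRows hm
  have hmemF : ∀ k : Fin m, k ∈ F ↔ k.val < d + 1 := by
    intro k
    simp [hF, firstRows]
  refine ⟨?_, ?_, ?_, ?_, ?_⟩
  · intro u k hk
    have := hle u k ((hmemF k).2 hk)
    linarith
  · intro u k hk
    rw [heq u k hk]
    linarith
  · intro u k hk
    rw [hI u] at hk
    exact (hmemF k).1 (Finset.mem_of_mem_erase hk)
  · intro u w
    rw [hE u w]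
    constructor
    · intro huw
      refine ⟨huw, ?_⟩
      have hne : ((e u).1 : Fin m) ≠ (e w).1 := by
        intro hc
        exact huw (e.injective (Subtype.ext hc))
      have h1 : s.I u ∩ s.I w = (F.erase (e u).1).erase (e w).1 := by
        rw [hI u, hI w]
        ext k
        simp only [Finset.mem_inter, Finset.mem_erase]
        tauto
      rw [h1, Finset.card_erase_of_mem (Finset.mem_erase.2 ⟨hne.symm, (e w).2⟩),
        Finset.card_erase_of_mem (e u).2, hcard]
      omega
    · intro h
      exact h.1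
  · refine ⟨fun K => if K ⊆ F ∧ K.card = d then 1 else 0, ?_, ?_, ?_⟩
    · intro K hK
      have hK' : K ⊆ F ∧ K.card = d := by
        by_contra hc
        exact hK (if_neg hc)
      refine ⟨hK'.2, ?_⟩
      obtain ⟨j, hjF, hjK⟩ : ∃ j ∈ F, j ∉ K := by
        by_contra hc
        push Not at hc
        have := Finset.card_le_card (show F ⊆ K from hc)
        omega
      refine ⟨e.symm ⟨j, hjF⟩, ?_⟩
      rw [hI, Equiv.apply_symm_apply]
      intro k hk
      rw [Finset.mem_erase]
      refine ⟨?_, hK'.1 hk⟩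
      rintro rfl
      exact hjK hk
    · intro K hK
      unfold bd
      by_cases hKF : K ⊆ F
      · have h1 : ∀ l ∈ Kᶜ, (if insert l K ⊆ F ∧ (insert l K).card = d then (1 : ZMod 2) else 0)
            = if l ∈ F then 1 else 0 := by
          intro l hl
          rw [Finset.mem_compl] at hl
          simp only [Finset.card_insert_of_notMem hl, Finset.insert_subset_iff, hKF, hK, and_true]
        rw [Finset.sum_congr rfl h1, ← Finset.sum_filter, Finset.sum_const]
        have h2 : (Kᶜ.filter (fun l => l ∈ F)) = F \ K := by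
          ext l
          simp only [Finset.mem_filter, Finset.mem_compl, Finset.mem_sdiff]
          tauto
        rw [h2, Finset.card_sdiff_of_subset hKF, hcard]
        have h3 : d + 1 - K.card = 2 := by omega
        rw [h3]
        decide
      · apply Finset.sum_eq_zero
        intro l _
        apply if_neg
        rintro ⟨h1, -⟩
        exact hKF ((Finset.subset_insert l K).trans h1)
    · intro h hg
      obtain ⟨μ, hμs, hμpos, hμ⟩ := pos_kernel hm hb
      obtain ⟨l0, hl0s, hl0⟩ := exists_repr hb h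
      refine Eq.trans ?_ (odd_cones hg hcard hμs hμpos hμ hl0s hl0)
      have h5 : ∀ K ∈ (Finset.univ : Finset (Finset (Fin m))),
          (if K ⊆ F ∧ K.card = d then (1 : ZMod 2) else 0) * (if InCone A K h then 1 else 0)
          = if K ⊆ F ∧ K.card = d then (if InCone A K h then 1 else 0) else 0 := by
        intro K _
        by_cases hK : K ⊆ F ∧ K.card = d
        · rw [if_pos hK, if_pos hK, one_mul]
        · rw [if_neg hK, if_neg hK, zero_mul]
      refine (Finset.sum_congr rfl h5).trans ?_
      rw [← Finset.sum_filter]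
      symm
      refine Finset.sum_bij (fun t _ => F.erase t) ?_ ?_ ?_ ?_
      · intro t ht
        rw [Finset.mem_filter]
        refine ⟨Finset.mem_univ _, Finset.erase_subset _ _, ?_⟩
        rw [Finset.card_erase_of_mem ht, hcard]
        rfl
      · intro t ht t' ht' htt
        exact Finset.erase_injOn F ht ht' htt
      · intro K hK
        rw [Finset.mem_filter] at hK
        obtain ⟨j, hjF, hjK⟩ : ∃ j ∈ F, j ∉ K := by
          by_contra hc
          push Not at hc
          have := Finset.card_le_card (show F ⊆ K from hc)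
          omega
        refine ⟨j, hjF, ?_⟩
        symm
        apply Finset.eq_of_subset_of_card_le
        · intro k hk
          rw [Finset.mem_erase]
          refine ⟨?_, hK.2.1 hk⟩
          rintro rfl
          exact hjK hk
        · rw [Finset.card_erase_of_mem hjF, hcard, hK.2.2]
          omega
      · intro t ht
        rfl

lemma dot_segment (a : Fin d → ℝ) {x y z : Fin d → ℝ} (hz : z ∈ segment ℝ x y) :
    ∃ p q : ℝ, 0 ≤ p ∧ 0 ≤ q ∧ p + q = 1 ∧ a ⬝ᵥ z = p * (a ⬝ᵥ x) + q * (a ⬝ᵥ y) := by
  obtain ⟨p, q, hp, hq, hpq, rfl⟩ := hz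
  refine ⟨p, q, hp, hq, hpq, ?_⟩
  rw [dotProduct_add, dotProduct_smul, dotProduct_smul, smul_eq_mul, smul_eq_mul]

lemma inv_step (hd : 1 ≤ d) {i : ℕ} (hi : i < m) {s s' : State m d} {κ : s.N → SignType}
    (hs : Inv A ε i s) (hκ : ValidChoice A ε ⟨i, hi⟩ s κ) (h : StepWith A ε ⟨i, hi⟩ s κ s')
    (hε : 0 ≤ ε) : Inv A ε (i + 1) s' := by
  classical
  set ι : Fin m := ⟨i, hi⟩ with hι
  obtain ⟨e, hc1, hI1, hc2, hI2, hE⟩ := h
  have hcases : ∀ x : s'.N, (∃ u, x = e (Sum.inl u)) ∨ ∃ p, x = e (Sum.inr p) := by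
    intro x
    obtain ⟨y, rfl⟩ := e.surjective x
    cases y with
    | inl u => exact Or.inl ⟨u, rfl⟩
    | inr p => exact Or.inr ⟨p, rfl⟩
  have hiI : ∀ u, ι ∉ s.I u := by
    intro u hu
    have := hs.lt u ι hu
    simp [hι] at this
  refine ⟨?_, ?_, ?_, hE, ?_⟩
  · intro x k hk
    rcases hcases x with ⟨u, rfl⟩ | ⟨p, rfl⟩
    · rw [hc1]
      by_cases hki : k.val < i
      · exact hs.up u.1 k hki
      · have hkι : k = ι := Fin.ext (by simp only [hι]; omega)
        rw [hkι]
        have hne := u.2
        rcases hsign : κ u.1 with _ | _ | _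
        · exact (hκ.zero u.1 hsign).2
        · have := hκ.neg u.1 hsign
          linarith
        · exact absurd hsign hne
    · by_cases hki : k.val < i
      · obtain ⟨a, b, ha, hb, hab, heq⟩ := dot_segment (A k) (hc2 p).1
        rw [heq]
        have h1 := hs.up p.1.1 k hki
        have h2 := hs.up p.1.2 k hki
        nlinarith
      · have hkι : k = ι := Fin.ext (by simp only [hι]; omega)
        rw [hkι]
        exact (hc2 p).2.2
  · intro x k hk
    rcases hcases x with ⟨u, rfl⟩ | ⟨p, rfl⟩
    · rw [hc1]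
      rw [hI1] at hk
      split_ifs at hk with h0
      · rw [Finset.mem_insert] at hk
        rcases hk with rfl | hk
        · exact (hκ.zero u.1 h0).1
        · exact hs.low u.1 k hk
      · exact hs.low u.1 k hk
    · rw [hI2, Finset.mem_insert, Finset.mem_inter] at hk
      rcases hk with rfl | ⟨hk1, hk2⟩
      · exact (hc2 p).2.1
      · obtain ⟨a, b, ha, hb, hab, heq⟩ := dot_segment (A k) (hc2 p).1
        rw [heq]
        have h1 := hs.low p.1.1 k hk1
        have h2 := hs.low p.1.2 k hk2
        nlinarith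
  · intro x k hk
    rcases hcases x with ⟨u, rfl⟩ | ⟨p, rfl⟩
    · rw [hI1] at hk
      split_ifs at hk with h0
      · rw [Finset.mem_insert] at hk
        rcases hk with rfl | hk
        · simp [hι]
        · exact (hs.lt u.1 k hk).trans (Nat.lt_succ_self i)
      · exact (hs.lt u.1 k hk).trans (Nat.lt_succ_self i)
    · rw [hI2, Finset.mem_insert, Finset.mem_inter] at hk
      rcases hk with rfl | ⟨hk1, hk2⟩
      · simp [hι]
      · exact (hs.lt _ k hk1).trans (Nat.lt_succ_self i)
  · obtain ⟨n, hn1, hn2, hn3⟩ := hs.chain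
    -- choose a node for every `K`
    have hchoice : ∀ K, ∃ b : Bool, n K ≠ 0 → (b = true → ∃ u, κ u = -1 ∧ K ⊆ s.I u) ∧
        (b = false → ∃ u, κ u ≠ -1 ∧ K ⊆ s.I u) := by
      intro K
      by_cases hK : n K ≠ 0
      · obtain ⟨-, u, hu⟩ := hn1 K hK
        by_cases hu1 : κ u = -1
        · exact ⟨true, fun _ => ⟨fun _ => ⟨u, hu1, hu⟩, fun h => by simp at h⟩⟩
        · exact ⟨false, fun _ => ⟨fun h => by simp at h, fun _ => ⟨u, hu1, hu⟩⟩⟩
      · exact ⟨true, fun h => absurd h hK⟩
    choose b hb using hchoice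
    set nm : Finset (Fin m) → ZMod 2 := fun K => if b K = true then n K else 0 with hnm
    set np : Finset (Fin m) → ZMod 2 := fun K => if b K = true then 0 else n K with hnp
    have hsplit : ∀ K, n K = nm K + np K := by
      intro K
      simp only [hnm, hnp]
      split_ifs <;> simp
    have hnK : ∀ K, ι ∈ K → n K = 0 := by
      intro K hK
      by_contra hc
      obtain ⟨-, u, hu⟩ := hn1 K hc
      exact hiI u (hu hK)
    have hnmK : ∀ K, ι ∈ K → nm K = 0 := by
      intro K hK
      simp only [hnm]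
      rw [hnK K hK]; simp
    have hnpK : ∀ K, ι ∈ K → np K = 0 := by
      intro K hK
      simp only [hnp]
      rw [hnK K hK]; simp
    have hnm1 : ∀ K, nm K ≠ 0 → K.card = d ∧ ∃ u, κ u = -1 ∧ K ⊆ s.I u := by
      intro K hK
      have hbK : b K = true := by
        by_contra hc
        apply hK
        simp only [hnm]
        rw [if_neg hc]
      have hnK' : n K ≠ 0 := by
        intro h0
        apply hK
        simp only [hnm]
        rw [if_pos hbK, h0]
      exact ⟨(hn1 K hnK').1, (hb K hnK').1 hbK⟩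
    have hnp1 : ∀ K, np K ≠ 0 → K.card = d ∧ ∃ u, κ u ≠ -1 ∧ K ⊆ s.I u := by
      intro K hK
      have hbK : b K = false := by
        by_contra hc
        apply hK
        simp only [hnp]
        rw [if_pos (by simpa using hc)]
      have hnK' : n K ≠ 0 := by
        intro h0
        apply hK
        simp only [hnp]
        rw [hbK, h0]; simp
      exact ⟨(hn1 K hnK').1, (hb K hnK').2 hbK⟩
    refine ⟨nxt ι nm, ?_, ?_, ?_⟩
    · intro K hK
      unfold nxt at hK
      split_ifs at hK with hιK
      · -- a new set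
        set K' := K.erase ι with hK'
        obtain ⟨l1, hl1, hne1⟩ : ∃ l ∈ K'ᶜ, nm (insert l K') ≠ 0 := by
          by_contra hc
          push Not at hc
          exact hK (Finset.sum_eq_zero hc)
        obtain ⟨hcard1, u, hu, hKu⟩ := hnm1 _ hne1
        rw [Finset.card_insert_of_notMem (Finset.mem_compl.1 hl1)] at hcard1
        have hbd : bd n K' = bd nm K' + bd np K' := by
          unfold bd
          rw [← Finset.sum_add_distrib]
          exact Finset.sum_congr rfl (fun l _ => hsplit _)
        rw [hn2 K' hcard1] at hbd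
        obtain ⟨l2, hl2, hne2⟩ : ∃ l ∈ K'ᶜ, np (insert l K') ≠ 0 := by
          by_contra hc
          push Not at hc
          have h0 : bd np K' = 0 := Finset.sum_eq_zero hc
          rw [h0, add_zero] at hbd
          exact hK hbd.symm
        obtain ⟨-, w, hw, hKw⟩ := hnp1 _ hne2
        have hK'u : K' ⊆ s.I u := (Finset.subset_insert _ _).trans hKu
        have hK'w : K' ⊆ s.I w := (Finset.subset_insert _ _).trans hKw
        refine ⟨?_, ?_⟩
        · have : K = insert ι K' := (Finset.insert_erase hιK).symm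
          rw [this, Finset.card_insert_of_notMem (Finset.notMem_erase ι K)]
          exact hcard1
        · have hins : K = insert ι K' := (Finset.insert_erase hιK).symm
          by_cases hw0 : κ w = 0
          · refine ⟨e (Sum.inl ⟨w, by rw [hw0]; decide⟩), ?_⟩
            rw [hI1]
            simp only [hw0, if_true]
            rw [hins]
            exact Finset.insert_subset_insert _ hK'w
          · have hw1 : κ w = 1 := by
              rcases hsign : κ w with _ | _ | _
              · exact absurd hsign hw0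
              · exact absurd hsign hw
              · rfl
            have hEuw : s.E u w := by
              rw [hs.edge]
              refine ⟨?_, ?_⟩
              · rintro rfl
                rw [hu] at hw1
                exact absurd hw1 (by decide)
              · have := Finset.card_le_card (Finset.subset_inter hK'u hK'w)
                omega
            have pc : ∃ p : Cut s κ, p.1 = (u, w) := ⟨⟨(u, w), hu, hw1, hEuw⟩, rfl⟩
            obtain ⟨p, hp⟩ := pc
            refine ⟨e (Sum.inr p), ?_⟩
            rw [hI2, hins, hp]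
            exact Finset.insert_subset_insert _ (Finset.subset_inter hK'u hK'w)
      · obtain ⟨hcard1, u, hu, hKu⟩ := hnm1 _ hK
        refine ⟨hcard1, e (Sum.inl ⟨u, by rw [hu]; decide⟩), ?_⟩
        rw [hI1]
        simp only [hu]
        rw [if_neg (by decide)]
        exact hKu
    · intro K _
      exact bd_nxt ι nm hnmK K
    · intro h hg
      have hn3' := hn3 h hg
      rw [sum_cycle ι n hnK (fun K hK => (hn1 K hK).1) hn2] at hn3'
      rw [sum_nxt ι nm hnmK]
      refine Eq.trans ?_ hn3'
      have hzero : ∑ L, np L * bsum ι (fun K => if InCone A K h then (1 : ZMod 2) else 0) L = 0 := by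
        apply Finset.sum_eq_zero
        intro L _
        by_cases hL : np L = 0
        · rw [hL, zero_mul]
        · obtain ⟨hcardL, u, hu, hLu⟩ := hnp1 L hL
          have hιL : ι ∉ L := fun hc => hL (hnpK L hc)
          have hpos : ∀ k ∈ insert ι L, 0 < A k ⬝ᵥ s.c u := by
            intro k hk
            rw [Finset.mem_insert] at hk
            rcases hk with rfl | hk
            · rcases hsign : κ u with _ | _ | _
              · have := (hκ.zero u hsign).1
                linarith
              · exact absurd hsign hu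
              · have := hκ.pos u hsign
                linarith
            · have := hs.low u k (hLu hk)
              linarith
          have := even_cones hg (T := insert ι L)
            (by rw [Finset.card_insert_of_notMem hιL, hcardL]) hpos
          unfold bsum
          rw [this, mul_zero]
      calc ∑ L, nm L * bsum ι (fun K => if InCone A K h then (1 : ZMod 2) else 0) L
          = ∑ L, nm L * bsum ι (fun K => if InCone A K h then (1 : ZMod 2) else 0) L
            + ∑ L, np L * bsum ι (fun K => if InCone A K h then (1 : ZMod 2) else 0) L := by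
            rw [hzero, add_zero]
        _ = ∑ L, n L * bsum ι (fun K => if InCone A K h then (1 : ZMod 2) else 0) L := by
            rw [← Finset.sum_add_distrib]
            apply Finset.sum_congr rfl
            intro L _
            rw [hsplit L]; ring

end invariant

/-! ## Correctness -/

section final

variable {m d : ℕ} {A : Matrix (Fin m) (Fin d) ℝ} {ε : ℝ}

/-- generic vectors are dense -/
lemma dense_gen : Dense {h : Fin d → ℝ | Gen A h} := by
  classical
  have h1 : ∀ K ∈ (Finset.univ.filter (fun K : Finset (Fin m) => K.card < d)),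
      Dense ((Submodule.span ℝ (Set.range (fun k : K => A k.1)) : Set (Fin d → ℝ))ᶜ) := by
    intro K hK
    rw [Finset.mem_filter] at hK
    rw [← interior_eq_empty_iff_dense_compl]
    by_contra hne
    rw [← Ne, ← Set.nonempty_iff_ne_empty] at hne
    have htop := Submodule.eq_top_of_nonempty_interior' _ hne
    have h2 : Module.finrank ℝ (Submodule.span ℝ (Set.range (fun k : K => A k.1))) ≤ K.card := by
      have := finrank_range_le_card (R := ℝ) (fun k : K => A k.1)
      rw [Fintype.card_coe] at this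
      exact this
    rw [htop, finrank_top, Module.finrank_fin_fun] at h2
    omega
  have h2 : Dense (⋂ K ∈ (Finset.univ.filter (fun K : Finset (Fin m) => K.card < d)),
      ((Submodule.span ℝ (Set.range (fun k : K => A k.1)) : Set (Fin d → ℝ))ᶜ)) := by
    apply dense_biInter_of_isOpen
    · intro K _
      rw [isOpen_compl_iff]
      exact Submodule.closed_of_finiteDimensional _
    · exact (Finset.finite_toSet _).countable
    · exact h1
  apply h2.mono
  intro h hh l hl
  by_contra hc
  push Not at hc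
  simp only [Set.mem_iInter] at hh
  apply hh (Finset.univ.filter (fun k => l k ≠ 0)) (by simpa using hc)
  rw [← hl]
  apply Submodule.sum_mem
  intro k _
  by_cases hk : l k = 0
  · rw [hk, zero_smul]
    exact Submodule.zero_mem _
  · apply Submodule.smul_mem
    apply Submodule.subset_span
    exact ⟨⟨k, by simpa using hk⟩, rfl⟩

lemma mem_hull {i : ℕ} {s : State m d} (hs : Inv A ε i s) {x : Fin d → ℝ}
    (hx : ∀ k : Fin m, k.val < i → A k ⬝ᵥ x ≤ 1) : x ∈ convexHull ℝ (Set.range s.c) := by
  classical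
  by_contra hc
  have hfin : Finite s.N := s.fin
  have hclosed : IsClosed (convexHull ℝ (Set.range s.c)) :=
    (Set.finite_range s.c).isClosed_convexHull ℝ
  obtain ⟨f, u, hf1, hf2⟩ := geometric_hahn_banach_closed_point (convex_convexHull ℝ _) hclosed hc
  set h0 : Fin d → ℝ := fun i => f (Pi.single i 1) with hh0
  have hfh : ∀ v : Fin d → ℝ, f v = h0 ⬝ᵥ v := by
    intro v
    have h1 : v = ∑ i, v i • (Pi.single i (1 : ℝ) : Fin d → ℝ) := by
      ext j
      simp [Finset.sum_apply, Pi.single_apply]
    conv_lhs => rw [h1]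
    rw [map_sum]
    simp only [map_smul, smul_eq_mul, dotProduct, hh0]
    apply Finset.sum_congr rfl
    intro i _
    ring
  -- an open set of separating vectors
  set U : Set (Fin d → ℝ) := {h | ∀ v : s.N, h ⬝ᵥ s.c v < h ⬝ᵥ x} with hU
  have hUopen : IsOpen U := by
    have : U = ⋂ v : s.N, {h | h ⬝ᵥ s.c v < h ⬝ᵥ x} := by
      ext h
      simp [hU]
    rw [this]
    apply isOpen_iInter_of_finite
    intro v
    apply isOpen_lt
    · exact Continuous.dotProduct continuous_id continuous_const
    · exact Continuous.dotProduct continuous_id continuous_const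
  have hUne : U.Nonempty := by
    refine ⟨h0, ?_⟩
    intro v
    rw [← hfh, ← hfh]
    exact (hf1 _ (subset_convexHull ℝ _ ⟨v, rfl⟩)).trans hf2
  obtain ⟨h, hhU, hg⟩ := dense_gen (A := A) |>.inter_open_nonempty U hUopen hUne
  obtain ⟨n, hn1, hn2, hn3⟩ := hs.chain
  have hn := hn3 h hg
  obtain ⟨K, hK1, hK2⟩ : ∃ K, n K ≠ 0 ∧ InCone A K h := by
    by_contra hcc
    push Not at hcc
    rw [Finset.sum_eq_zero] at hn
    · exact absurd hn (by decide)
    · intro K _
      by_cases hK : n K = 0
      · rw [hK, zero_mul]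
      · rw [if_neg (hcc K hK), mul_zero]
  obtain ⟨-, v, hv⟩ := hn1 K hK1
  obtain ⟨l, hl0, hls, hl⟩ := hK2
  have h1 := hhU v
  rw [← hl, sum_dot, sum_dot] at h1
  have h2 : ∑ k, l k * (A k ⬝ᵥ x) ≤ ∑ k, l k * (A k ⬝ᵥ s.c v) := by
    apply Finset.sum_le_sum
    intro k _
    by_cases hk : k ∈ K
    · have a1 := hs.low v k (hv hk)
      have a2 := hx k (hs.lt v k (hv hk))
      exact mul_le_mul_of_nonneg_left (a2.trans a1) (hl0 k)
    · rw [hls k hk, zero_mul, zero_mul]
  linarith

lemma inv_reach (hd : 1 ≤ d) (hm : d + 1 ≤ m) (hb : Bornology.IsBounded (startSet A))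
    (hε : 0 ≤ ε) {i : ℕ} {s : State m d} (h : Reach A ε i s) : Inv A ε i s := by
  induction h with
  | start s h => exact inv_start hm hb hε h
  | step i hi s s' κ hs hκ h ih => exact inv_step hd hi ih hκ h hε

/-- **The approximate double description method is correct in every dimension `d ≥ 2`.** -/
theorem correct : ∀ d : ℕ, 2 ≤ d → CorrectInDim d := by
  classical
  intro d hd m A ε hm _ hS hε
  have hb := bounded_of_simplex hS
  refine ⟨?_, ?_, ?_⟩
  · -- the start
    have hv : ∀ j : {j // j ∈ firstRows m d}, ∃ x : Fin d → ℝ,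
        (∀ k ∈ (firstRows m d).erase j.1, A k ⬝ᵥ x = 1 + ε / 2) ∧
        ∀ k ∈ firstRows m d, A k ⬝ᵥ x ≤ 1 + ε / 2 :=
      fun j => exists_vertex hm hb (by linarith) j.2
    choose c hc1 hc2 using hv
    exact ⟨{ N := {j // j ∈ firstRows m d}
             fin := inferInstance
             c := c
             I := fun j => (firstRows m d).erase j.1
             E := fun u w => u ≠ w },
      Equiv.refl _, fun u => rfl, fun u k hk => hc1 u k hk, fun u k hk => hc2 u k hk,
      fun u w => Iff.rfl⟩
  · intro i s hs hi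
    have hinv := inv_reach (by omega) hm hb hε hs
    refine ⟨?_, ?_⟩
    · refine ⟨fun u => if A ⟨i, hi⟩ ⬝ᵥ s.c u < 1 + ε / 2 then -1
        else if 1 + ε / 2 < A ⟨i, hi⟩ ⬝ᵥ s.c u then 1 else 0, ?_, ?_, ?_, ?_⟩
      · by_contra hc
        push Not at hc
        have hall : ∀ u, 1 + ε / 2 ≤ A ⟨i, hi⟩ ⬝ᵥ s.c u := by
          intro u
          by_contra hlt
          push Not at hlt
          exact hc u (if_pos hlt)
        have h0 : (0 : Fin d → ℝ) ∈ convexHull ℝ (Set.range s.c) := by
          apply mem_hull hinv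
          intro k _
          rw [dotProduct_zero]; norm_num
        have hsub : convexHull ℝ (Set.range s.c)
            ⊆ {y : Fin d → ℝ | 1 + ε / 2 ≤ A ⟨i, hi⟩ ⬝ᵥ y} := by
          apply convexHull_min
          · rintro _ ⟨u, rfl⟩
            exact hall u
          · intro y hy z hz a b ha hb' hab
            simp only [Set.mem_ofPred_eq] at hy hz ⊢
            rw [dotProduct_add, dotProduct_smul, dotProduct_smul, smul_eq_mul, smul_eq_mul]
            nlinarith
        have := hsub h0
        simp only [Set.mem_ofPred_eq, dotProduct_zero] at this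
        linarith
      · intro u hu
        split_ifs at hu with h1 h2
        exact h1
      · intro u hu
        split_ifs at hu with h1 h2
        exact h2
      · intro u hu
        split_ifs at hu with h1 h2
        push Not at h1 h2
        constructor <;> linarith
    · intro κ hκ
      have hfin : Finite s.N := s.fin
      have hpt : ∀ p : Cut s κ, ∃ x : Fin d → ℝ, x ∈ segment ℝ (s.c p.1.1) (s.c p.1.2) ∧
          1 ≤ A ⟨i, hi⟩ ⬝ᵥ x ∧ A ⟨i, hi⟩ ⬝ᵥ x ≤ 1 + ε := by
        intro p
        have h1 := hκ.neg _ p.2.1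
        have h2 := hκ.pos _ p.2.2.1
        set a := A ⟨i, hi⟩ ⬝ᵥ s.c p.1.1
        set b := A ⟨i, hi⟩ ⬝ᵥ s.c p.1.2
        have hba : 0 < b - a := by linarith
        refine ⟨((b - (1 + ε / 2)) / (b - a)) • s.c p.1.1
          + (((1 + ε / 2) - a) / (b - a)) • s.c p.1.2,
          ⟨_, _, div_nonneg (by linarith) hba.le, div_nonneg (by linarith) hba.le, ?_, rfl⟩, ?_⟩
        · field_simp
          ring
        · have h3 : A ⟨i, hi⟩ ⬝ᵥ (((b - (1 + ε / 2)) / (b - a)) • s.c p.1.1
              + (((1 + ε / 2) - a) / (b - a)) • s.c p.1.2) = 1 + ε / 2 := by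
            rw [dotProduct_add, dotProduct_smul, dotProduct_smul, smul_eq_mul, smul_eq_mul]
            change (b - (1 + ε / 2)) / (b - a) * a + ((1 + ε / 2) - a) / (b - a) * b = 1 + ε / 2
            field_simp
            ring
          rw [h3]
          constructor <;> linarith
      choose x hx1 hx2 hx3 using hpt
      have hfinC : Finite (Cut s κ) := by unfold Cut; infer_instance
      let I' : {u : s.N // κ u ≠ 1} ⊕ Cut s κ → Finset (Fin m) := Sum.elim
        (fun u => if κ u.1 = 0 then insert ⟨i, hi⟩ (s.I u.1) else s.I u.1)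
        (fun p => insert ⟨i, hi⟩ (s.I p.1.1 ∩ s.I p.1.2))
      exact ⟨{ N := {u : s.N // κ u ≠ 1} ⊕ Cut s κ
               fin := inferInstance
               c := Sum.elim (fun u => s.c u.1) x
               I := I'
               E := fun y z => y ≠ z ∧ d - 1 ≤ (I' y ∩ I' z).card },
        Equiv.refl _, fun u => rfl, fun u => rfl, fun p => ⟨hx1 p, hx2 p, hx3 p⟩, fun p => rfl,
        fun y z => Iff.rfl⟩
  · intro s hs
    have hinv := inv_reach (by omega) hm hb hε hs
    refine ⟨?_, ?_⟩
    · intro x hx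
      exact mem_hull hinv (fun k _ => hx k)
    · apply convexHull_min
      · rintro _ ⟨u, rfl⟩ k
        exact hinv.up u k k.2
      · intro y hy z hz a b ha hb' hab k
        have h1 := hy k
        have h2 := hz k
        rw [dotProduct_add, dotProduct_smul, dotProduct_smul, smul_eq_mul, smul_eq_mul]
        nlinarith

end final

end Pool.Agent.Helper25.Addm
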