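import Mathlib

/-!
The sign computation behind Kasteleyn's theorem, for signs given by a `number of vertices below
the edge` rule.
-/

set_option autoImplicit false

namespace Pool.Agent.Helper25

open Equiv

section sign

variable {V : Type*} {k : ℕ}

/-- the equivalence `inl i ↦ 2 i`, `inr i ↦ 2 i + 1` -/
def eLex (k : ℕ) : Fin k ⊕ Fin k ≃ Fin (k * 2) :=
  (boolProdEquivSum (Fin k)).symm.trans ((Equiv.prodComm _ _).trans
    ((Equiv.prodCongr (Equiv.refl _) finTwoEquiv.symm).trans finProdFinEquiv))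

lemma eLex_inl (i : Fin k) : (eLex k (Sum.inl i)).val = 2 * i.val := by
  simp [eLex, boolProdEquivSum, finTwoEquiv, finProdFinEquiv]

lemma eLex_inr (i : Fin k) : (eLex k (Sum.inr i)).val = 2 * i.val + 1 := by
  simp [eLex, boolProdEquivSum, finTwoEquiv, finProdFinEquiv]
  omega

/-- the block terms of the product of `f` over all pairs -/
def GG (f : V → V → ℤ) (ρ : Fin k ⊕ Fin k ≃ V) (i j : Fin k) : ℤ :=
  if i < j then f (ρ (Sum.inl i)) (ρ (Sum.inl j)) * f (ρ (Sum.inl i)) (ρ (Sum.inr j)) *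
      f (ρ (Sum.inr i)) (ρ (Sum.inl j)) * f (ρ (Sum.inr i)) (ρ (Sum.inr j))
  else if i = j then f (ρ (Sum.inl i)) (ρ (Sum.inr i)) else 1

/-- the product of `f` over all pairs, organised by blocks -/
def PP (f : V → V → ℤ) (ρ : Fin k ⊕ Fin k ≃ V) : ℤ := ∏ j : Fin k, ∏ i : Fin k, GG f ρ i j

lemma prod_pairs_eq (f : V → V → ℤ) (ρ : Fin k ⊕ Fin k ≃ V) :
    ∏ y : Fin (k * 2), ∏ x ∈ Finset.Iio y, f (ρ ((eLex k).symm x)) (ρ ((eLex k).symm y))
      = PP f ρ := by
  have h1 : ∀ y : Fin (k * 2), ∏ x ∈ Finset.Iio y, f (ρ ((eLex k).symm x)) (ρ ((eLex k).symm y))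
      = ∏ x : Fin (k * 2), if x < y then f (ρ ((eLex k).symm x)) (ρ ((eLex k).symm y)) else 1 := by
    intro y
    rw [← Finset.prod_filter]
    congr 1
    ext x
    simp
  simp_rw [h1]
  rw [← Equiv.prod_comp (eLex k)]
  simp_rw [← Equiv.prod_comp (eLex k) (fun x => if x < _ then f (ρ ((eLex k).symm x)) _ else 1)]
  simp only [Equiv.symm_apply_apply]
  rw [Fintype.prod_sum_type]
  simp_rw [Fintype.prod_sum_type]
  rw [← Finset.prod_mul_distrib]
  unfold PP
  apply Finset.prod_congr rfl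
  intro j _
  rw [← Finset.prod_mul_distrib, ← Finset.prod_mul_distrib, ← Finset.prod_mul_distrib]
  apply Finset.prod_congr rfl
  intro i _
  unfold GG
  simp only [Fin.lt_def, eLex_inl, eLex_inr, Fin.ext_iff]
  rcases lt_trichotomy i.val j.val with h | h | h
  · rw [if_pos (by omega), if_pos (by omega), if_pos (by omega), if_pos (by omega), if_pos h]
    ring
  · have hij : i = j := Fin.ext h
    subst hij
    rw [if_neg (by omega), if_neg (by omega), if_pos (by omega), if_neg (by omega),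
      if_neg (by omega), if_pos rfl]
    ring
  · rw [if_neg (by omega), if_neg (by omega), if_neg (by omega), if_neg (by omega),
      if_neg (by omega), if_neg (by omega)]
    ring

lemma PP_comp (f : V → V → ℤ) (hf : ∀ u v, f u v = - f v u) (ρ : Fin k ⊕ Fin k ≃ V)
    (σ : Perm (Fin k ⊕ Fin k)) :
    PP f (σ.trans ρ) = (Perm.sign σ : ℤ) * PP f ρ := by
  rw [← prod_pairs_eq, ← prod_pairs_eq]
  have h := Equiv.Perm.prod_Iio_comp_eq_sign_mul_prod (R := ℤ)
    (((eLex k).symm.trans σ).trans (eLex k))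
    (f := fun x y => f (ρ ((eLex k).symm x)) (ρ ((eLex k).symm y))) (fun x y => hf _ _)
  rw [Equiv.Perm.sign_symm_trans_trans] at h
  simp only [Equiv.trans_apply, Equiv.symm_apply_apply, Int.cast_id] at h ⊢
  exact h

/-- **Kasteleyn sign lemma.** -/
theorem prod_eq_PP [Fintype V] [DecidableEq V] (Adj : V → V → Prop) (f : V → V → ℤ)
    (g : V → V → V → ℤ) (K : V → V → ℤ)
    (hK : ∀ u v, Adj u v → K u v = f u v * ∏ w, g u v w)
    (hg1 : ∀ u v, Adj u v → g u v u = 1) (hg2 : ∀ u v, Adj u v → g u v v = 1)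
    (hpair : ∀ u v x y, Adj u v → Adj x y → u ≠ x → u ≠ y → v ≠ x → v ≠ y →
      f u x * f u y * f v x * f v y = g u v x * g u v y * (g x y u * g x y v))
    (ρ : Fin k ⊕ Fin k ≃ V) (hρ : ∀ i, Adj (ρ (Sum.inl i)) (ρ (Sum.inr i))) :
    ∏ i : Fin k, K (ρ (Sum.inl i)) (ρ (Sum.inr i)) = PP f ρ := by
  set h : Fin k → Fin k → ℤ := fun i j =>
    g (ρ (Sum.inl i)) (ρ (Sum.inr i)) (ρ (Sum.inl j)) *
      g (ρ (Sum.inl i)) (ρ (Sum.inr i)) (ρ (Sum.inr j)) with hh
  have h1 : ∀ i, K (ρ (Sum.inl i)) (ρ (Sum.inr i))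
      = f (ρ (Sum.inl i)) (ρ (Sum.inr i)) * ∏ j, h i j := by
    intro i
    rw [hK _ _ (hρ i), ← Equiv.prod_comp ρ, Fintype.prod_sum_type, ← Finset.prod_mul_distrib]
  simp_rw [h1]
  rw [Finset.prod_mul_distrib]
  have hii : ∀ i, h i i = 1 := by
    intro i
    simp only [hh]
    rw [hg1 _ _ (hρ i), hg2 _ _ (hρ i), mul_one]
  have h2 : ∀ i, ∏ j, h i j = (∏ j, if i < j then h i j else 1) * ∏ j, if j < i then h i j else 1 := by
    intro i
    rw [← Finset.prod_mul_distrib]
    apply Finset.prod_congr rfl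
    intro j _
    rcases lt_trichotomy i j with hij | hij | hij
    · rw [if_pos hij, if_neg (not_lt_of_gt hij), mul_one]
    · subst hij
      simp [hii]
    · rw [if_pos hij, if_neg (not_lt_of_gt hij), one_mul]
  simp_rw [h2]
  rw [Finset.prod_mul_distrib, Finset.prod_comm
    (f := fun i j => if i < j then h i j else 1)]
  unfold PP
  rw [← Finset.prod_mul_distrib, ← Finset.prod_mul_distrib]
  apply Finset.prod_congr rfl
  intro j _
  have h3 : ∀ i, GG f ρ i j = (if i = j then f (ρ (Sum.inl j)) (ρ (Sum.inr j)) else 1) *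
      ((if i < j then h i j else 1) * (if i < j then h j i else 1)) := by
    intro i
    unfold GG
    rcases lt_trichotomy i j with hij | hij | hij
    · rw [if_pos hij, if_neg (ne_of_lt hij), if_pos hij, if_pos hij, one_mul]
      have hne : ∀ a b : Fin k ⊕ Fin k, a ≠ b → ρ a ≠ ρ b := fun a b hab hc => hab (ρ.injective hc)
      have hne' : i ≠ j := ne_of_lt hij
      rw [hpair _ _ _ _ (hρ i) (hρ j) (hne _ _ (by simpa using hne')) (hne _ _ (by simp))
        (hne _ _ (by simp)) (hne _ _ (by simpa using hne'))]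
    · subst hij
      simp
    · rw [if_neg (not_lt_of_gt hij), if_neg (ne_of_gt hij), if_neg (ne_of_gt hij),
        if_neg (not_lt_of_gt hij), if_neg (not_lt_of_gt hij)]
      ring
  simp_rw [h3]
  rw [Finset.prod_mul_distrib, Finset.prod_mul_distrib]
  simp

end sign

end Pool.Agent.Helper25
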