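import Mathlib

/-!
Counting permutations `σ` of `m ⊕ m` all of whose pairs `σ (inl i), σ (inr i)` are adjacent, in
terms of the number of perfect matchings.
-/

set_option autoImplicit false

namespace Pool.Agent.Helper25

open Equiv

section matching

variable {V : Type*} [Fintype V] [DecidableEq V]

/-- fixed-point-free involutions mapping each vertex to a neighbour -/
def PMS (G : SimpleGraph V) : Type _ :=
  {μ : Perm V // (∀ v, μ (μ v) = v) ∧ ∀ v, G.Adj v (μ v)}

noncomputable def pmEquiv (G : SimpleGraph V) :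
    {M : G.Subgraph // M.IsPerfectMatching} ≃ PMS G where
  toFun M := by
    have h := SimpleGraph.Subgraph.isPerfectMatching_iff.1 M.2
    let f : V → V := fun v => (h v).choose
    have hf : ∀ v, M.1.Adj v (f v) := fun v => (h v).choose_spec.1
    have huniq : ∀ v w, M.1.Adj v w → w = f v := fun v w hw => (h v).choose_spec.2 w hw
    have hinv : Function.Involutive f := by
      intro v
      exact (huniq (f v) v (hf v).symm).symm
    exact ⟨hinv.toPerm, hinv, fun v => (hf v).adj_sub⟩
  invFun μ :=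
    ⟨{ verts := Set.univ
       Adj := fun v w => μ.1 v = w
       adj_sub := by
        intro v w h
        rw [← h]
        exact μ.2.2 v
       edge_vert := by
        intro v w _
        exact Set.mem_univ v
       symm := ⟨by
        intro v w h
        rw [← h]
        exact μ.2.1 v⟩ }, by
      rw [SimpleGraph.Subgraph.isPerfectMatching_iff]
      intro v
      exact ⟨μ.1 v, rfl, fun w hw => Eq.symm hw⟩⟩
  left_inv M := by
    have h := SimpleGraph.Subgraph.isPerfectMatching_iff.1 M.2
    apply Subtype.ext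
    apply SimpleGraph.Subgraph.ext
    · exact (Set.eq_univ_of_forall M.2.2).symm
    · funext v w
      apply propext
      constructor
      · intro hw
        have hw' : (h v).choose = w := hw
        rw [← hw']
        exact (h v).choose_spec.1
      · intro hw
        exact ((h v).choose_spec.2 w hw).symm
  right_inv μ := by
    apply Subtype.ext
    apply Equiv.ext
    intro v
    have h1 : ∀ (h : ∃! w, μ.1 v = w), h.choose = μ.1 v := fun h => h.choose_spec.1.symm
    exact h1 _

end matching

section count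

variable {m : Type*} [Fintype m] [DecidableEq m]

lemma cycleType_of_fpf {ι : Type*} [Fintype ι] [DecidableEq ι] (μ : Perm ι)
    (h1 : ∀ v, μ (μ v) = v) (h2 : ∀ v, μ v ≠ v) :
    μ.cycleType = Multiset.replicate (Fintype.card ι / 2) 2 := by
  have h3 : μ ^ 2 = 1 := by
    ext v
    simp [pow_two, h1]
  have : Fact (Nat.Prime 2) := ⟨Nat.prime_two⟩
  have h4 := Equiv.Perm.pow_prime_eq_one_iff.1 h3
  have h5 : μ.cycleType = Multiset.replicate (Multiset.card μ.cycleType) 2 :=
    Multiset.eq_replicate_card.2 h4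
  have h6 := Equiv.Perm.sum_cycleType μ
  have h7 : μ.support = Finset.univ := by
    ext v
    simp [h2 v]
  rw [h7, Finset.card_univ] at h6
  rw [h5, Multiset.sum_replicate, smul_eq_mul] at h6
  rw [h5]
  congr 1
  omega

/-- the swap of the two summands -/
abbrev sw (m : Type*) : Perm (m ⊕ m) := Equiv.sumComm m m

/-- permutations commuting with the swap -/
def CS (m : Type*) : Type _ := {τ : Perm (m ⊕ m) // ∀ p, τ (sw m p) = sw m (τ p)}

/-- permutations all of whose blocks are edges -/
def BL {V : Type*} (G : SimpleGraph V) (ρ : m ⊕ m ≃ V) : Type _ :=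
  {σ : Perm (m ⊕ m) // ∀ i, G.Adj (ρ (σ (Sum.inl i))) (ρ (σ (Sum.inr i)))}

lemma exists_conj {V : Type*} [Fintype V] [DecidableEq V] (G : SimpleGraph V) (ρ : m ⊕ m ≃ V)
    (μ : PMS G) : ∃ σ : Perm (m ⊕ m), ∀ p, ρ (σ (sw m p)) = μ.1 (ρ (σ p)) := by
  set μ' : Perm (m ⊕ m) := (ρ.trans μ.1).trans ρ.symm with hμ'
  have h1 : ∀ v, μ' (μ' v) = v := by
    intro v
    simp [hμ', μ.2.1]
  have h2 : ∀ v, μ' v ≠ v := by
    intro v hv
    have : μ.1 (ρ v) = ρ v := by
      rw [← hv]
      simp only [hμ', Equiv.trans_apply, Equiv.apply_symm_apply, μ.2.1]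
      have h3 : μ' v = v := hv
      simp only [hμ', Equiv.trans_apply, Equiv.symm_apply_eq] at h3
      exact h3.symm
    exact (μ.2.2 (ρ v)).ne this.symm
  have h3 := cycleType_of_fpf μ' h1 h2
  have h4 := cycleType_of_fpf (sw m) (by intro v; cases v <;> rfl) (by intro v; cases v <;> simp)
  have h5 : IsConj (sw m) μ' := by
    rw [Equiv.Perm.isConj_iff_cycleType_eq, h3, h4]
  rw [isConj_iff] at h5
  obtain ⟨c, hc⟩ := h5
  refine ⟨c, fun p => ?_⟩
  have h6 : μ' (c p) = c (sw m p) := by
    rw [← hc]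
    simp
  rw [← h6]
  simp [hμ']

theorem card_BL {V : Type*} [Fintype V] [DecidableEq V] (G : SimpleGraph V) (ρ : m ⊕ m ≃ V) :
    Nat.card (BL G ρ) = Nat.card (PMS G) * Nat.card (CS m) := by
  classical
  rw [← Nat.card_prod]
  symm
  choose c hc using exists_conj G ρ
  have hmul : ∀ (μ : PMS G) (τ : CS m) (p : m ⊕ m),
      ρ (c μ (τ.1 (sw m p))) = μ.1 (ρ (c μ (τ.1 p))) := by
    intro μ τ p
    rw [τ.2, hc]
  apply Nat.card_congr
  refine Equiv.ofBijective (fun x : PMS G × CS m =>
    (⟨x.2.1.trans (c x.1), fun i => ?_⟩ : BL G ρ)) ⟨?_, ?_⟩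
  · have h := hmul x.1 x.2 (Sum.inl i)
    have h' : (sw m) (Sum.inl i) = Sum.inr i := rfl
    rw [h'] at h
    simp only [Equiv.trans_apply]
    rw [h]
    exact x.1.2.2 _
  · rintro ⟨μ, τ⟩ ⟨μ', τ'⟩ h
    have h1 : τ.1.trans (c μ) = τ'.1.trans (c μ') := congrArg Subtype.val h
    have h1' : ∀ p, c μ (τ.1 p) = c μ' (τ'.1 p) := fun p => by
      have := congrArg (fun e : Perm (m ⊕ m) => e p) h1
      simpa using this
    have h2 : μ = μ' := by
      apply Subtype.ext
      apply Equiv.ext
      intro v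
      obtain ⟨p, rfl⟩ : ∃ p, v = ρ (c μ (τ.1 p)) :=
        ⟨τ.1.symm ((c μ).symm (ρ.symm v)), by simp⟩
      rw [← hmul μ τ p, h1' (sw m p), hmul μ' τ' p, h1' p]
    subst h2
    congr 1
    apply Subtype.ext
    apply Equiv.ext
    intro p
    exact (c μ).injective (h1' p)
  · rintro ⟨σ, hσ⟩
    -- the matching of `σ`
    let μ₀ : Perm V := ((ρ.symm.trans σ.symm).trans (sw m)).trans (σ.trans ρ)
    have hμ₀ : ∀ p, μ₀ (ρ (σ p)) = ρ (σ (sw m p)) := by
      intro p
      simp [μ₀]
    have hadj : ∀ p, G.Adj (ρ (σ p)) (ρ (σ (sw m p))) := by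
      intro p
      cases p with
      | inl i => exact hσ i
      | inr i => exact (hσ i).symm
    have hsurj : ∀ v, ∃ p, v = ρ (σ p) := fun v => ⟨σ.symm (ρ.symm v), by simp⟩
    let μ : PMS G := ⟨μ₀, by
      constructor
      · intro v
        obtain ⟨p, rfl⟩ := hsurj v
        rw [hμ₀, hμ₀]
        cases p <;> rfl
      · intro v
        obtain ⟨p, rfl⟩ := hsurj v
        rw [hμ₀]
        exact hadj p⟩
    let τ : CS m := ⟨σ.trans (c μ).symm, by
      intro p
      simp only [Equiv.trans_apply]
      rw [Equiv.symm_apply_eq]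
      apply ρ.injective
      rw [hc]
      simp only [Equiv.apply_symm_apply]
      exact (hμ₀ p).symm⟩
    refine ⟨(μ, τ), ?_⟩
    apply Subtype.ext
    apply Equiv.ext
    intro p
    simp [τ]

instance : Finite (CS m) := by unfold CS; infer_instance

omit [DecidableEq m] in
lemma card_CS_pos : 0 < Nat.card (CS m) := by
  have : Nonempty (CS m) := ⟨⟨1, fun _ => rfl⟩⟩
  exact Nat.card_pos

end count

end Pool.Agent.Helper25
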