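import Mathlib

/-!
A Pfaffian-like sum over permutations, `pf A = ∑ σ, sign σ * ∏ i, A (σ (inl i)) (σ (inr i))`, and its
behaviour under congruence.
-/

set_option autoImplicit false

namespace Pool.Agent.Helper25

open Matrix Equiv

section general

variable {m : Type*} [Fintype m] [DecidableEq m] {R : Type*} [CommRing R]

/-- `∑ σ, sign σ * ∏ i, A (σ (inl i)) (σ (inr i))`; this is `2^k k!` times the Pfaffian. -/
def pf (A : Matrix (m ⊕ m) (m ⊕ m) R) : R :=
  ∑ σ : Perm (m ⊕ m), ((Perm.sign σ : ℤ) : R) * ∏ i : m, A (σ (Sum.inl i)) (σ (Sum.inr i))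

lemma sum_det_submatrix (B : Matrix (m ⊕ m) (m ⊕ m) R) (F : ((m ⊕ m) → (m ⊕ m)) → R) :
    ∑ f : (m ⊕ m) → (m ⊕ m), F f * (B.submatrix id f).det
      = ∑ σ : Perm (m ⊕ m), F σ * (((Perm.sign σ : ℤ) : R) * B.det) := by
  symm
  apply Fintype.sum_of_injective (fun σ : Perm (m ⊕ m) => (σ : (m ⊕ m) → (m ⊕ m)))
    Equiv.coe_fn_injective
  · intro f hf
    have : ¬ Function.Injective f := by
      intro hinj
      apply hf
      exact ⟨Equiv.ofBijective f (Finite.injective_iff_bijective.1 hinj), rfl⟩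
    rw [Function.Injective] at this
    push Not at this
    obtain ⟨a, b, hab, hne⟩ := this
    rw [Matrix.det_zero_of_column_eq hne, mul_zero]
    intro i
    simp [Matrix.submatrix_apply, hab]
  · intro σ
    rw [Matrix.det_permute']

theorem pf_congr (A B : Matrix (m ⊕ m) (m ⊕ m) R) : pf (B * A * Bᵀ) = B.det * pf A := by
  unfold pf
  have h1 : ∀ σ : Perm (m ⊕ m), ∏ i : m, (B * A * Bᵀ) (σ (Sum.inl i)) (σ (Sum.inr i))
      = ∑ f : (m ⊕ m) → (m ⊕ m), (∏ i : m, A (f (Sum.inl i)) (f (Sum.inr i))) *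
          ∏ p, B (σ p) (f p) := by
    intro σ
    have h2 : ∀ i : m, (B * A * Bᵀ) (σ (Sum.inl i)) (σ (Sum.inr i))
        = ∑ kl : (m ⊕ m) × (m ⊕ m), A kl.1 kl.2 * (B (σ (Sum.inl i)) kl.1 *
            B (σ (Sum.inr i)) kl.2) := by
      intro i
      rw [Matrix.mul_apply]
      simp_rw [Matrix.mul_apply, Finset.sum_mul, Matrix.transpose_apply]
      rw [Finset.sum_comm, ← Fintype.sum_prod_type']
      apply Finset.sum_congr rfl
      intro kl _
      ring
    simp_rw [h2]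
    rw [Finset.prod_univ_sum, Fintype.piFinset_univ]
    symm
    apply Fintype.sum_equiv ((Equiv.sumArrowEquivProdArrow m m (m ⊕ m)).trans
      (Equiv.arrowProdEquivProdArrow m (fun _ => m ⊕ m) (fun _ => m ⊕ m)).symm)
    intro f
    rw [Fintype.prod_sum_type, ← Finset.prod_mul_distrib, ← Finset.prod_mul_distrib]
    rfl
  simp_rw [h1, Finset.mul_sum]
  rw [Finset.sum_comm]
  have h3 : ∀ f : (m ⊕ m) → (m ⊕ m),
      ∑ σ : Perm (m ⊕ m), ((Perm.sign σ : ℤ) : R) *
        ((∏ i : m, A (f (Sum.inl i)) (f (Sum.inr i))) * ∏ p, B (σ p) (f p))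
      = (∏ i : m, A (f (Sum.inl i)) (f (Sum.inr i))) * (B.submatrix id f).det := by
    intro f
    rw [Matrix.det_apply', Finset.mul_sum]
    apply Finset.sum_congr rfl
    intro σ _
    simp only [Matrix.submatrix_apply, id]
    ring
  simp_rw [h3]
  rw [sum_det_submatrix]
  apply Finset.sum_congr rfl
  intro σ _
  ring

/-- The standard symplectic matrix. -/
def JJ (m : Type*) [DecidableEq m] (R : Type*) [CommRing R] : Matrix (m ⊕ m) (m ⊕ m) R :=
  Matrix.fromBlocks 0 1 (-1) 0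

theorem pf_isotropic [Invertible (2 : R)] (Z Y : Matrix m m R) (hY : Yᵀ = -Y) :
    pf (Matrix.fromBlocks 0 Z (-Zᵀ) Y) = Z.det * pf (JJ m R) := by
  have h : Matrix.fromBlocks 0 Z (-Zᵀ) Y
      = Matrix.fromBlocks Z 0 ((⅟2 : R) • Y) 1 * JJ m R *
        (Matrix.fromBlocks Z 0 ((⅟2 : R) • Y) 1)ᵀ := by
    rw [JJ, Matrix.fromBlocks_transpose, Matrix.fromBlocks_multiply, Matrix.fromBlocks_multiply]
    simp only [Matrix.mul_zero, Matrix.zero_mul, Matrix.mul_one, Matrix.one_mul,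
      Matrix.transpose_zero, Matrix.transpose_one, zero_add, add_zero, Matrix.mul_neg,
      Matrix.neg_mul, Matrix.transpose_smul, hY, neg_zero]
    congr 1
    rw [smul_neg, neg_neg, ← add_smul]
    rw [← two_mul, mul_invOf_self, one_smul]
  rw [h, pf_congr, Matrix.det_fromBlocks_zero₁₂, Matrix.det_one, mul_one]

end general

end Pool.Agent.Helper25
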