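import Mathlib
import Pool.Agent.Helper25.Pf
import Pool.Agent.Helper25.KastSign
import Pool.Agent.Helper25.PMCount

/-!
Kasteleyn's theorem in the form: the sum `pf` of a Kasteleyn matrix is `±` the number of perfect
matchings times a constant depending only on the size.
-/

set_option autoImplicit false

namespace Pool.Agent.Helper25

open Matrix Equiv

/-- Hypotheses making `K` a Kasteleyn matrix of the graph `G`: `f` is the sign of a linear order,
and `g u v w = -1` when the vertex `w` is below the edge `u v`. -/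
structure KastData {V : Type*} [Fintype V] (G : SimpleGraph V) (f : V → V → ℤ)
    (g : V → V → V → ℤ) (K : V → V → ℤ) : Prop where
  f_anti : ∀ u v, f u v = - f v u
  f_sq : ∀ u v, u ≠ v → f u v * f u v = 1
  K_adj : ∀ u v, G.Adj u v → K u v = f u v * ∏ w, g u v w
  K_nadj : ∀ u v, ¬ G.Adj u v → K u v = 0
  g_left : ∀ u v, G.Adj u v → g u v u = 1
  g_right : ∀ u v, G.Adj u v → g u v v = 1
  pair : ∀ u v x y, G.Adj u v → G.Adj x y → u ≠ x → u ≠ y → v ≠ x → v ≠ y →
      f u x * f u y * f v x * f v y = g u v x * g u v y * (g x y u * g x y v)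

section

variable {m : Type*} [Fintype m] [DecidableEq m] {V : Type*} [Fintype V] [DecidableEq V]

omit [Fintype V] [DecidableEq V] in
lemma PP_sq {k : ℕ} (f : V → V → ℤ) (hf : ∀ u v, u ≠ v → f u v * f u v = 1)
    (ρ : Fin k ⊕ Fin k ≃ V) : PP f ρ * PP f ρ = 1 := by
  unfold PP
  rw [← Finset.prod_mul_distrib]
  apply Finset.prod_eq_one
  intro j _
  rw [← Finset.prod_mul_distrib]
  apply Finset.prod_eq_one
  intro i _
  unfold GG
  have hne : ∀ a b : Fin k ⊕ Fin k, a ≠ b → ρ a ≠ ρ b := fun a b hab hc => hab (ρ.injective hc)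
  rcases lt_trichotomy i j with hij | hij | hij
  · rw [if_pos hij]
    have hne' : i ≠ j := ne_of_lt hij
    have h1 := hf _ _ (hne (Sum.inl i) (Sum.inl j) (by simpa using hne'))
    have h2 := hf _ _ (hne (Sum.inl i) (Sum.inr j) (by simp))
    have h3 := hf _ _ (hne (Sum.inr i) (Sum.inl j) (by simp))
    have h4 := hf _ _ (hne (Sum.inr i) (Sum.inr j) (by simpa using hne'))
    calc _ = (f (ρ (Sum.inl i)) (ρ (Sum.inl j)) * f (ρ (Sum.inl i)) (ρ (Sum.inl j))) *
          (f (ρ (Sum.inl i)) (ρ (Sum.inr j)) * f (ρ (Sum.inl i)) (ρ (Sum.inr j))) *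
          (f (ρ (Sum.inr i)) (ρ (Sum.inl j)) * f (ρ (Sum.inr i)) (ρ (Sum.inl j))) *
          (f (ρ (Sum.inr i)) (ρ (Sum.inr j)) * f (ρ (Sum.inr i)) (ρ (Sum.inr j))) := by ring
      _ = 1 := by rw [h1, h2, h3, h4]; norm_num
  · subst hij
    rw [if_neg (lt_irrefl i), if_pos rfl]
    exact hf _ _ (hne _ _ (by simp))
  · rw [if_neg (not_lt_of_gt hij), if_neg (ne_of_gt hij)]
    norm_num

theorem pf_kast {G : SimpleGraph V} {f : V → V → ℤ} {g : V → V → V → ℤ} {K : V → V → ℤ}
    (h : KastData G f g K) (ρ : m ⊕ m ≃ V) :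
    ∃ s : ℤ, s * s = 1 ∧
      pf (Matrix.of fun p q => K (ρ p) (ρ q) : Matrix (m ⊕ m) (m ⊕ m) ℤ)
        = s * (Nat.card (BL G ρ) : ℤ) := by
  classical
  obtain ⟨k, ⟨θ⟩⟩ : ∃ k, Nonempty (m ≃ Fin k) := ⟨_, ⟨Fintype.equivFin m⟩⟩
  set Θ : m ⊕ m ≃ Fin k ⊕ Fin k := Equiv.sumCongr θ θ with hΘ
  set ρ' : Fin k ⊕ Fin k ≃ V := Θ.symm.trans ρ with hρ'
  refine ⟨PP f ρ', PP_sq f h.f_sq ρ', ?_⟩
  have key : ∀ σ : Perm (m ⊕ m), (∀ i, G.Adj (ρ (σ (Sum.inl i))) (ρ (σ (Sum.inr i)))) →
      ∏ i : m, K (ρ (σ (Sum.inl i))) (ρ (σ (Sum.inr i))) = (Perm.sign σ : ℤ) * PP f ρ' := by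
    intro σ hσ
    set σ' : Perm (Fin k ⊕ Fin k) := (Θ.symm.trans σ).trans Θ with hσ'
    have h1 : ∀ p, (σ'.trans ρ') (Θ p) = ρ (σ p) := by
      intro p
      simp [hσ', hρ']
    have h1l : ∀ i : m, (σ'.trans ρ') (Sum.inl (θ i)) = ρ (σ (Sum.inl i)) := fun i => h1 (Sum.inl i)
    have h1r : ∀ i : m, (σ'.trans ρ') (Sum.inr (θ i)) = ρ (σ (Sum.inr i)) := fun i => h1 (Sum.inr i)
    have h2 := prod_eq_PP G.Adj f g K h.K_adj h.g_left h.g_right h.pair (σ'.trans ρ') (by
      intro i
      obtain ⟨j, rfl⟩ := θ.surjective i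
      rw [h1l, h1r]
      exact hσ j)
    rw [PP_comp f h.f_anti, Equiv.Perm.sign_symm_trans_trans] at h2
    rw [← h2, ← Equiv.prod_comp θ]
    apply Finset.prod_congr rfl
    intro i _
    rw [h1l, h1r]
  unfold pf
  have h3 : ∀ σ : Perm (m ⊕ m), (Int.cast ((Perm.sign σ : ℤ)) : ℤ) * ∏ i : m,
      (Matrix.of fun p q => K (ρ p) (ρ q) : Matrix (m ⊕ m) (m ⊕ m) ℤ) (σ (Sum.inl i)) (σ (Sum.inr i))
      = if (∀ i, G.Adj (ρ (σ (Sum.inl i))) (ρ (σ (Sum.inr i)))) then PP f ρ' else 0 := by
    intro σ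
    simp only [Matrix.of_apply]
    split_ifs with hσ
    · rw [key σ hσ, ← mul_assoc]
      have : ((Perm.sign σ : ℤ)) * (Perm.sign σ : ℤ) = 1 := by
        rcases Int.units_eq_one_or (Perm.sign σ) with h | h <;> simp [h]
      rw [Int.cast_id, this, one_mul]
    · push Not at hσ
      obtain ⟨i, hi⟩ := hσ
      rw [Finset.prod_eq_zero (Finset.mem_univ i) (h.K_nadj _ _ hi), mul_zero]
  rw [Finset.sum_congr rfl (fun σ _ => h3 σ), ← Finset.sum_filter, Finset.sum_const, nsmul_eq_mul,
    mul_comm]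
  congr 2
  unfold BL
  rw [Nat.card_eq_fintype_card, Fintype.card_subtype]

lemma pf_map {R S : Type*} [CommRing R] [CommRing S] (φ : R →+* S)
    (A : Matrix (m ⊕ m) (m ⊕ m) R) : pf (A.map φ) = φ (pf A) := by
  unfold pf
  rw [map_sum]
  apply Finset.sum_congr rfl
  intro σ _
  rw [map_mul, map_prod]
  simp

/-! The standard symplectic matrix as a Kasteleyn matrix. -/

/-- the graph consisting of the `k` disjoint edges from `inl i` to `inr i` -/
def blockGraph (k : ℕ) : SimpleGraph (Fin k ⊕ Fin k) where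
  Adj p q := q = sw (Fin k) p
  symm := ⟨by
    intro p q h
    rw [h]
    cases p <;> rfl⟩
  loopless := ⟨by
    intro p h
    cases p <;> simp at h⟩

/-- sign of the order `inl 0 < inr 0 < inl 1 < inr 1 < ...` -/
def fLex (k : ℕ) (p q : Fin k ⊕ Fin k) : ℤ :=
  if eLex k p < eLex k q then 1 else if eLex k q < eLex k p then -1 else 0

lemma kast_JJ (k : ℕ) : KastData (blockGraph k) (fLex k) (fun _ _ _ => 1) (JJ (Fin k) ℤ) where
  f_anti := by
    intro u v
    unfold fLex
    rcases lt_trichotomy (eLex k u) (eLex k v) with h | h | h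
    · simp [h, not_lt_of_gt h]
    · simp [h]
    · simp [h, not_lt_of_gt h]
  f_sq := by
    intro u v huv
    unfold fLex
    rcases lt_trichotomy (eLex k u) (eLex k v) with h | h | h
    · simp [h]
    · exact absurd ((eLex k).injective h) huv
    · simp [h, not_lt_of_gt h]
  K_adj := by
    rintro u v rfl
    rw [Finset.prod_const_one, mul_one]
    unfold JJ fLex
    cases u with
    | inl i =>
      have h : eLex k (Sum.inl i) < eLex k (Sum.inr i) := by
        rw [Fin.lt_def, eLex_inl, eLex_inr]; omega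
      simp [h]
    | inr i =>
      have h : eLex k (Sum.inl i) < eLex k (Sum.inr i) := by
        rw [Fin.lt_def, eLex_inl, eLex_inr]; omega
      simp [h, not_lt_of_gt h]
  K_nadj := by
    intro u v h
    unfold JJ
    cases u with
    | inl i =>
      cases v with
      | inl j => simp
      | inr j =>
        have : i ≠ j := by
          rintro rfl
          exact h rfl
        simp [this]
    | inr i =>
      cases v with
      | inr j => simp
      | inl j =>
        have : i ≠ j := by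
          rintro rfl
          exact h rfl
        simp [this]
  g_left := fun _ _ _ => rfl
  g_right := fun _ _ _ => rfl
  pair := by
    rintro u v x y rfl rfl h1 h2 h3 h4
    have key : ∀ i j : Fin k, i ≠ j → ∀ (a b : Fin k ⊕ Fin k),
        (a = Sum.inl i ∨ a = Sum.inr i) → (b = Sum.inl j ∨ b = Sum.inr j) →
        fLex k a b = if i < j then 1 else -1 := by
      intro i j hij a b ha hb
      have ha' : (eLex k a).val = 2 * i.val ∨ (eLex k a).val = 2 * i.val + 1 := by
        rcases ha with rfl | rfl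
        · left; exact eLex_inl i
        · right; exact eLex_inr i
      have hb' : (eLex k b).val = 2 * j.val ∨ (eLex k b).val = 2 * j.val + 1 := by
        rcases hb with rfl | rfl
        · left; exact eLex_inl j
        · right; exact eLex_inr j
      have hij' : i.val ≠ j.val := fun h => hij (Fin.ext h)
      unfold fLex
      simp only [Fin.lt_def]
      by_cases hlt : i.val < j.val
      · rw [if_pos hlt, if_pos (by omega)]
      · rw [if_neg hlt, if_neg (by omega), if_pos (by omega)]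
    obtain ⟨i, hi⟩ : ∃ i, (u = Sum.inl i ∨ u = Sum.inr i) := by
      cases u with
      | inl i => exact ⟨i, Or.inl rfl⟩
      | inr i => exact ⟨i, Or.inr rfl⟩
    obtain ⟨j, hj⟩ : ∃ j, (x = Sum.inl j ∨ x = Sum.inr j) := by
      cases x with
      | inl i => exact ⟨i, Or.inl rfl⟩
      | inr i => exact ⟨i, Or.inr rfl⟩
    have hi' : (sw (Fin k) u = Sum.inl i ∨ sw (Fin k) u = Sum.inr i) := by
      rcases hi with rfl | rfl
      · right; rfl
      · left; rfl
    have hj' : (sw (Fin k) x = Sum.inl j ∨ sw (Fin k) x = Sum.inr j) := by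
      rcases hj with rfl | rfl
      · right; rfl
      · left; rfl
    have hij : i ≠ j := by
      rintro rfl
      rcases hi with rfl | rfl <;> rcases hj with rfl | rfl
      · exact h1 rfl
      · exact h2 rfl
      · exact h2 rfl
      · exact h1 rfl
    rw [key i j hij _ _ hi hj, key i j hij _ _ hi hj', key i j hij _ _ hi' hj,
      key i j hij _ _ hi' hj']
    split_ifs <;> norm_num

theorem pf_JJ : ∃ s : ℤ, s * s = 1 ∧ pf (JJ m ℤ) = s * (Nat.card (CS m) : ℤ) := by
  classical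
  obtain ⟨k, ⟨θ⟩⟩ : ∃ k, Nonempty (m ≃ Fin k) := ⟨_, ⟨Fintype.equivFin m⟩⟩
  obtain ⟨s, hs, h⟩ := pf_kast (kast_JJ k) (Equiv.sumCongr θ θ)
  refine ⟨s, hs, ?_⟩
  have h1 : (Matrix.of fun p q => JJ (Fin k) ℤ ((Equiv.sumCongr θ θ) p) ((Equiv.sumCongr θ θ) q)
      : Matrix (m ⊕ m) (m ⊕ m) ℤ) = JJ m ℤ := by
    ext p q
    unfold JJ
    cases p <;> cases q <;> simp [Matrix.one_apply]
  rw [h1] at h
  rw [h]
  congr 2
  apply Nat.card_congr
  refine Equiv.subtypeEquiv (Equiv.refl _) ?_
  intro σ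
  have hadj : ∀ i : m, (blockGraph k).Adj ((Equiv.sumCongr θ θ) (σ (Sum.inl i)))
      ((Equiv.sumCongr θ θ) (σ (Sum.inr i))) ↔ σ (Sum.inr i) = sw m (σ (Sum.inl i)) := by
    intro i
    change (Equiv.sumCongr θ θ) (σ (Sum.inr i)) = sw (Fin k) ((Equiv.sumCongr θ θ) (σ (Sum.inl i)))
      ↔ _
    have : sw (Fin k) ((Equiv.sumCongr θ θ) (σ (Sum.inl i)))
        = (Equiv.sumCongr θ θ) (sw m (σ (Sum.inl i))) := by
      cases σ (Sum.inl i) <;> simp
    rw [this]
    exact (Equiv.sumCongr θ θ).injective.eq_iff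
  have hsw : ∀ p, sw m (sw m p) = p := by intro p; cases p <;> rfl
  constructor
  · intro h p
    simp only [Equiv.refl_apply]
    cases p with
    | inl i => exact (hadj i).1 (h i)
    | inr i =>
      have h2 := (hadj i).1 (h i)
      change σ (Sum.inl i) = _
      rw [h2, hsw]
  · intro h i
    rw [hadj]
    exact h (Sum.inl i)

/-- **Kasteleyn's theorem for a matrix with an isotropic half.**  If a unimodular congruence
brings the Kasteleyn matrix to the shape `[[0, Z], [-Zᵀ, Y]]`, then the number of perfect matchings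
is `|det Z|`. -/
theorem card_perfectMatching {G : SimpleGraph V} {f : V → V → ℤ} {g : V → V → V → ℤ}
    {K : V → V → ℤ} (h : KastData G f g K) (ρ : m ⊕ m ≃ V)
    (T : Matrix (m ⊕ m) (m ⊕ m) ℤ) (hT : T.det * T.det = 1) (Z Y : Matrix m m ℤ) (hY : Yᵀ = -Y)
    (hZ : T * (Matrix.of fun p q => K (ρ p) (ρ q) : Matrix (m ⊕ m) (m ⊕ m) ℤ) * Tᵀ
      = Matrix.fromBlocks 0 Z (-Zᵀ) Y) :
    Nat.card {M : G.Subgraph // M.IsPerfectMatching} = Z.det.natAbs := by
  obtain ⟨s, hs, h1⟩ := pf_kast h ρ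
  obtain ⟨s', hs', h2⟩ := pf_JJ (m := m)
  have h3 := congrArg pf hZ
  rw [pf_congr, h1, card_BL, ← Nat.card_congr (pmEquiv G)] at h3
  have h4 : pf (Matrix.fromBlocks 0 Z (-Zᵀ) Y) = Z.det * pf (JJ m ℤ) := by
    have hinj : Function.Injective (Int.castRingHom ℚ) := (Int.castRingHom ℚ).injective_int
    apply hinj
    rw [← pf_map, map_mul, ← pf_map, (Int.castRingHom ℚ).map_det]
    have : Invertible (2 : ℚ) := invertibleOfNonzero (by norm_num)
    have h5 := pf_isotropic ((Int.castRingHom ℚ).mapMatrix Z) ((Int.castRingHom ℚ).mapMatrix Y)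
      (by
        rw [RingHom.mapMatrix_apply, ← Matrix.transpose_map, hY]
        ext i j
        simp)
    have h6 : (Matrix.fromBlocks 0 Z (-Zᵀ) Y).map (Int.castRingHom ℚ)
        = Matrix.fromBlocks 0 ((Int.castRingHom ℚ).mapMatrix Z)
          (-((Int.castRingHom ℚ).mapMatrix Z)ᵀ) ((Int.castRingHom ℚ).mapMatrix Y) := by
      ext (i | i) (j | j) <;> simp
    have h7 : (JJ m ℤ).map (Int.castRingHom ℚ) = JJ m ℚ := by
      unfold JJ
      ext (i | i) (j | j)
      · simp
      · by_cases hij : i = j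
        · simp [hij]
        · simp [hij]
      · by_cases hij : i = j
        · simp [hij]
        · simp [hij]
      · simp
    rw [h6, h7]
    exact h5
  rw [h4, h2] at h3
  have hc : (Nat.card (CS m) : ℤ) ≠ 0 := by
    have := card_CS_pos (m := m)
    omega
  have h8 : T.det * s * (Nat.card {M : G.Subgraph // M.IsPerfectMatching} : ℤ) = Z.det * s' := by
    apply mul_right_cancel₀ hc
    push_cast at h3
    linear_combination h3
  have habs : ∀ t : ℤ, t * t = 1 → t.natAbs = 1 := by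
    intro t ht
    have := congrArg Int.natAbs ht
    rw [Int.natAbs_mul] at this
    exact Nat.eq_one_of_mul_eq_one_left this
  have h9 := congrArg Int.natAbs h8
  rw [Int.natAbs_mul, Int.natAbs_mul, Int.natAbs_mul, habs _ hT, habs _ hs, habs _ hs',
    Int.natAbs_natCast] at h9
  omega

end

end Pool.Agent.Helper25
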