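import Mathlib

set_option autoImplicit false

namespace Pool.Agent.Helper25.Tri

/-- The vertex set `V_n = {(i,j) ∈ ℤ² : 0 ≤ j ≤ i ≤ n - 1}` of the triangle graph of order `n`. -/
abbrev Vtx (n : ℕ) : Type := {p : ℤ × ℤ // 0 ≤ p.2 ∧ p.2 ≤ p.1 ∧ p.1 ≤ (n : ℤ) - 1}

/-- The triangle graph `T_n`: two vertices are adjacent exactly when they differ by one of
`(0,1)`, `(1,0)`, `(1,1)`. -/
def T (n : ℕ) : SimpleGraph (Vtx n) :=
  SimpleGraph.fromRel fun p q =>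
    q.1 - p.1 = (0, 1) ∨ q.1 - p.1 = (1, 0) ∨ q.1 - p.1 = (1, 1)

/-- `M(n)`: the number of perfect matchings of `T_n`. -/
noncomputable def M (n : ℕ) : ℕ := Nat.card {P : (T n).Subgraph // P.IsPerfectMatching}

end Pool.Agent.Helper25.Tri
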