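import Mathlib

/-!
Integer lemmas for the triangular grid.
-/

set_option autoImplicit false

namespace Pool.Agent.Helper25

/-- `(-1)^j` -/
def ep (j : ℤ) : ℤ := if j % 2 = 0 then 1 else -1

/-- the Kasteleyn matrix of the triangular grid -/
def Kz (i j a b : ℤ) : ℤ :=
  if a = i ∧ b = j + 1 then 1
  else if a = i ∧ j = b + 1 then -1
  else if a = i + 1 ∧ (b = j ∨ b = j + 1) then ep b
  else if i = a + 1 ∧ (j = b ∨ j = b + 1) then - ep j
  else 0

/-- the sign of the row-major order -/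
def fz (i j a b : ℤ) : ℤ :=
  if i < a ∨ (i = a ∧ j < b) then 1 else if a < i ∨ (a = i ∧ b < j) then -1 else 0

/-- `-1` if the vertex `(c,d)` is in the lower row of the edge from `(i,j)` to `(a,b)`, left of its end -/
def gz (i j a b c d : ℤ) : ℤ :=
  if (i < a ∧ c = a ∧ d < b) ∨ (a < i ∧ c = i ∧ d < j) then -1 else 1

/-- the sign of row `i` in the reflection -/
def Dz (i : ℤ) : ℤ := if i % 4 = 0 ∨ i % 4 = 1 then -1 else 1

/-- `(a,b)` is one of the three neighbours of `(i,j)` that follow it in the row-major order -/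
def az (i j a b : ℤ) : Prop := (a = i ∧ b = j + 1) ∨ (a = i + 1 ∧ b = j) ∨ (a = i + 1 ∧ b = j + 1)

lemma fz_anti (i j a b : ℤ) : fz i j a b = - fz a b i j := by
  unfold fz
  split_ifs <;> first | rfl | (exfalso; omega)

lemma fz_one (i j a b : ℤ) (h : i < a ∨ (i = a ∧ j < b)) : fz i j a b = 1 := by
  unfold fz
  rw [if_pos h]

lemma fz_neg (i j a b : ℤ) (h : a < i ∨ (a = i ∧ b < j)) : fz i j a b = -1 := by
  unfold fz
  rw [if_neg (by omega), if_pos h]

lemma gz_one (i j a b c d : ℤ) (h : ¬ ((i < a ∧ c = a ∧ d < b) ∨ (a < i ∧ c = i ∧ d < j))) :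
    gz i j a b c d = 1 := by
  unfold gz
  rw [if_neg h]

lemma gz_neg (i j a b c d : ℤ) (h : (i < a ∧ c = a ∧ d < b) ∨ (a < i ∧ c = i ∧ d < j)) :
    gz i j a b c d = -1 := by
  unfold gz
  rw [if_pos h]

lemma gz_symm (i j a b c d : ℤ) : gz i j a b c d = gz a b i j c d := by
  unfold gz
  split_ifs <;> first | rfl | (exfalso; omega)

/-- the pair identity when the first edge is horizontal -/
lemma pair_horiz (i j c d e f : ℤ) (_h2 : az c d e f)
    (n1 : ¬ (i = c ∧ j = d)) (n2 : ¬ (i = e ∧ j = f)) (n3 : ¬ (i = c ∧ j + 1 = d))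
    (n4 : ¬ (i = e ∧ j + 1 = f)) :
    fz i j c d * fz i j e f * fz i (j + 1) c d * fz i (j + 1) e f
      = gz i j i (j + 1) c d * gz i j i (j + 1) e f * (gz c d e f i j * gz c d e f i (j + 1)) := by
  rw [gz_one i j i (j + 1) c d (by omega), gz_one i j i (j + 1) e f (by omega)]
  have k1 : ∀ x y : ℤ, ¬ (i = x ∧ j = y) → ¬ (i = x ∧ j + 1 = y) →
      fz i j x y * fz i (j + 1) x y = 1 := by
    intro x y m1 m2
    rcases lt_trichotomy i x with h | h | h
    · rw [fz_one _ _ _ _ (Or.inl h), fz_one _ _ _ _ (Or.inl h)]; rfl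
    · rcases lt_trichotomy j y with h' | h' | h'
      · rw [fz_one _ _ _ _ (by omega), fz_one _ _ _ _ (by omega)]; rfl
      · exact absurd ⟨h, h'⟩ m1
      · rw [fz_neg _ _ _ _ (by omega), fz_neg _ _ _ _ (by omega)]; rfl
    · rw [fz_neg _ _ _ _ (by omega), fz_neg _ _ _ _ (by omega)]; rfl
  have k2 : gz c d e f i j = gz c d e f i (j + 1) := by
    by_cases hh : (c < e ∧ i = e ∧ j < f) ∨ (e < c ∧ i = c ∧ j < d)
    · rw [gz_neg _ _ _ _ _ _ hh, gz_neg _ _ _ _ _ _ (by omega)]
    · rw [gz_one _ _ _ _ _ _ hh, gz_one _ _ _ _ _ _ (by omega)]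
  have k3 : gz c d e f i (j + 1) * gz c d e f i (j + 1) = 1 := by
    unfold gz
    split_ifs <;> rfl
  rw [k2, k3]
  have a1 := k1 c d n1 n3
  have a2 := k1 e f n2 n4
  calc _ = (fz i j c d * fz i (j + 1) c d) * (fz i j e f * fz i (j + 1) e f) := by ring
    _ = _ := by rw [a1, a2]; rfl

/-- the pair identity for two edges between consecutive rows, the first one starting not lower -/
lemma pair_vert (i j b c d f : ℤ) (hb : b = j ∨ b = j + 1) (hf : f = d ∨ f = d + 1) (hic : i ≤ c)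
    (n1 : ¬ (i = c ∧ j = d)) (n3 : ¬ (i + 1 = c ∧ b = d)) (n4 : ¬ (i = c ∧ b = f)) :
    fz i j c d * fz i j (c + 1) f * fz (i + 1) b c d * fz (i + 1) b (c + 1) f
      = gz i j (i + 1) b c d * gz i j (i + 1) b (c + 1) f *
        (gz c d (c + 1) f i j * gz c d (c + 1) f (i + 1) b) := by
  rcases lt_trichotomy (i + 1) c with h | h | h
  · rw [fz_one _ _ _ _ (by omega), fz_one _ _ _ _ (by omega), fz_one _ _ _ _ (by omega),
      fz_one _ _ _ _ (by omega), gz_one _ _ _ _ _ _ (by omega), gz_one _ _ _ _ _ _ (by omega),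
      gz_one _ _ _ _ _ _ (by omega), gz_one _ _ _ _ _ _ (by omega)]
    rfl
  · rw [fz_one i j c d (by omega), fz_one i j (c + 1) f (by omega),
      fz_one (i + 1) b (c + 1) f (by omega), gz_one i j (i + 1) b (c + 1) f (by omega),
      gz_one c d (c + 1) f i j (by omega), gz_one c d (c + 1) f (i + 1) b (by omega)]
    rcases lt_trichotomy b d with h' | h' | h'
    · rw [fz_one _ _ _ _ (by omega), gz_one _ _ _ _ _ _ (by omega)]; rfl
    · exact absurd ⟨h, h'⟩ n3
    · rw [fz_neg _ _ _ _ (by omega), gz_neg _ _ _ _ _ _ (by omega)]; rfl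
  · have hc : c = i := by omega
    subst hc
    rw [fz_one c j (c + 1) f (by omega), fz_neg (c + 1) b c d (by omega),
      gz_one c j (c + 1) b c d (by omega), gz_one c d (c + 1) f c j (by omega)]
    rcases lt_trichotomy j d with h' | h' | h'
    · rw [fz_one c j c d (by omega), fz_one (c + 1) b (c + 1) f (by omega),
        gz_one c j (c + 1) b (c + 1) f (by omega), gz_neg c d (c + 1) f (c + 1) b (by omega)]
      rfl
    · exact absurd ⟨rfl, h'⟩ n1
    · rw [fz_neg c j c d (by omega), fz_neg (c + 1) b (c + 1) f (by omega),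
        gz_neg c j (c + 1) b (c + 1) f (by omega), gz_one c d (c + 1) f (c + 1) b (by omega)]
      rfl

lemma pair_int' (i j a b c d e f : ℤ) (h1 : az i j a b) (h2 : az c d e f)
    (n1 : ¬ (i = c ∧ j = d)) (n2 : ¬ (i = e ∧ j = f)) (n3 : ¬ (a = c ∧ b = d))
    (n4 : ¬ (a = e ∧ b = f)) :
    fz i j c d * fz i j e f * fz a b c d * fz a b e f
      = gz i j a b c d * gz i j a b e f * (gz c d e f i j * gz c d e f a b) := by
  by_cases hh1 : a = i ∧ b = j + 1
  · obtain ⟨rfl, rfl⟩ := hh1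
    exact pair_horiz a j c d e f h2 n1 n2 n3 n4
  by_cases hh2 : e = c ∧ f = d + 1
  · obtain ⟨rfl, rfl⟩ := hh2
    have := pair_horiz e d i j a b h1 (fun h => n1 ⟨h.1.symm, h.2.symm⟩)
      (fun h => n3 ⟨h.1.symm, h.2.symm⟩) (fun h => n2 ⟨h.1.symm, h.2.symm⟩)
      (fun h => n4 ⟨h.1.symm, h.2.symm⟩)
    rw [fz_anti i j, fz_anti i j, fz_anti a b, fz_anti a b]
    rw [mul_comm (gz i j a b e d * gz i j a b e (d + 1)), ← this]
    ring
  have ha : a = i + 1 ∧ (b = j ∨ b = j + 1) := by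
    clear n1 n2 n3 n4 h2 hh2
    unfold az at h1; omega
  have he : e = c + 1 ∧ (f = d ∨ f = d + 1) := by
    clear n1 n2 n3 n4 h1 hh1 ha
    unfold az at h2; omega
  obtain ⟨rfl, hb⟩ := ha
  obtain ⟨rfl, hf⟩ := he
  rcases le_total i c with hic | hic
  · exact pair_vert i j b c d f hb hf hic n1 n3 (fun h => n4 ⟨by rw [h.1], h.2⟩)
  · have := pair_vert c d f i j b hf hb hic (fun h => n1 ⟨h.1.symm, h.2.symm⟩)
      (fun h => n2 ⟨h.1.symm, h.2.symm⟩) (fun h => n4 ⟨by rw [h.1], h.2.symm⟩)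
    rw [fz_anti i j, fz_anti i j, fz_anti (i + 1) b, fz_anti (i + 1) b]
    rw [mul_comm (gz i j (i + 1) b c d * gz i j (i + 1) b (c + 1) f), ← this]
    ring

lemma pair_int (i j a b c d e f : ℤ) (h1 : az i j a b ∨ az a b i j) (h2 : az c d e f ∨ az e f c d)
    (n1 : ¬ (i = c ∧ j = d)) (n2 : ¬ (i = e ∧ j = f)) (n3 : ¬ (a = c ∧ b = d))
    (n4 : ¬ (a = e ∧ b = f)) :
    fz i j c d * fz i j e f * fz a b c d * fz a b e f
      = gz i j a b c d * gz i j a b e f * (gz c d e f i j * gz c d e f a b) := by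
  rcases h1 with h1 | h1 <;> rcases h2 with h2 | h2
  · exact pair_int' i j a b c d e f h1 h2 n1 n2 n3 n4
  · have := pair_int' i j a b e f c d h1 h2 n2 n1 n4 n3
    rw [gz_symm c d, gz_symm c d]
    calc _ = fz i j e f * fz i j c d * fz a b e f * fz a b c d := by ring
      _ = _ := by rw [this]; ring
  · have := pair_int' a b i j c d e f h1 h2 n3 n4 n1 n2
    rw [gz_symm i j, gz_symm i j]
    calc _ = fz a b c d * fz a b e f * fz i j c d * fz i j e f := by ring
      _ = _ := by rw [this]; ring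
  · have := pair_int' a b i j e f c d h1 h2 n4 n3 n2 n1
    rw [gz_symm c d, gz_symm c d, gz_symm i j, gz_symm i j]
    calc _ = fz a b e f * fz a b c d * fz i j e f * fz i j c d := by ring
      _ = _ := by rw [this]; ring

lemma ep_sq (j : ℤ) : ep j * ep j = 1 := by
  unfold ep; split_ifs <;> rfl

lemma Dz_sq (j : ℤ) : Dz j * Dz j = 1 := by
  unfold Dz; split_ifs <;> rfl

lemma Kz_anti (i j a b : ℤ) : Kz i j a b = - Kz a b i j := by
  unfold Kz
  split_ifs <;> first | rfl | (exfalso; omega) | ring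

lemma ep_refl (i b : ℤ) : ep (i + 1 - b) = - (Dz i * Dz (i + 1)) * ep b := by
  unfold ep Dz
  split_ifs <;> first | rfl | (exfalso; omega)

lemma Kz_refl (i j a b : ℤ) : Kz i (i - j) a (a - b) = - (Dz i * Dz a) * Kz i j a b := by
  have hrow : Dz i * Dz i = 1 := Dz_sq i
  by_cases c1 : a = i ∧ b = j + 1
  · obtain ⟨rfl, rfl⟩ := c1
    have e1 : Kz a (a - j) a (a - (j + 1)) = -1 := by
      unfold Kz; rw [if_neg (by omega), if_pos (by omega)]
    have e2 : Kz a j a (j + 1) = 1 := by unfold Kz; rw [if_pos (by omega)]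
    rw [e1, e2, hrow]; rfl
  by_cases c2 : a = i ∧ j = b + 1
  · obtain ⟨rfl, rfl⟩ := c2
    have e1 : Kz a (a - (b + 1)) a (a - b) = 1 := by
      unfold Kz; rw [if_pos (by omega)]
    have e2 : Kz a (b + 1) a b = -1 := by unfold Kz; rw [if_neg (by omega), if_pos (by omega)]
    rw [e1, e2, hrow]; rfl
  by_cases c3 : a = i + 1 ∧ (b = j ∨ b = j + 1)
  · obtain ⟨rfl, hb⟩ := c3
    have e1 : Kz i (i - j) (i + 1) (i + 1 - b) = ep (i + 1 - b) := by
      unfold Kz; rw [if_neg (by omega), if_neg (by omega), if_pos (by omega)]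
    have e2 : Kz i j (i + 1) b = ep b := by
      unfold Kz; rw [if_neg (by omega), if_neg (by omega), if_pos (by omega)]
    rw [e1, e2, ep_refl]
  by_cases c4 : i = a + 1 ∧ (j = b ∨ j = b + 1)
  · obtain ⟨rfl, hb⟩ := c4
    have e1 : Kz (a + 1) (a + 1 - j) a (a - b) = - ep (a + 1 - j) := by
      unfold Kz
      rw [if_neg (by omega), if_neg (by omega), if_neg (by omega), if_pos (by omega)]
    have e2 : Kz (a + 1) j a b = - ep j := by
      unfold Kz
      rw [if_neg (by omega), if_neg (by omega), if_neg (by omega), if_pos (by omega)]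
    rw [e1, e2, ep_refl]
    ring
  have e1 : Kz i (i - j) a (a - b) = 0 := by
    unfold Kz
    rw [if_neg (by omega), if_neg (by omega), if_neg (by omega), if_neg (by omega)]
  have e2 : Kz i j a b = 0 := by
    unfold Kz
    rw [if_neg (by omega), if_neg (by omega), if_neg (by omega), if_neg (by omega)]
  rw [e1, e2, mul_zero]

/-- mod 2 the Kasteleyn matrix is the sum of six indicators -/
lemma Kz_mod2 (i j a b : ℤ) : ((Kz i j a b : ℤ) : ZMod 2) =
    (if a = i ∧ b = j + 1 then 1 else 0) + (if a = i ∧ b = j - 1 then 1 else 0)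
    + (if a = i + 1 ∧ b = j then 1 else 0) + (if a = i + 1 ∧ b = j + 1 then 1 else 0)
    + (if a = i - 1 ∧ b = j then 1 else 0) + (if a = i - 1 ∧ b = j - 1 then 1 else 0) := by
  have hep : ∀ t : ℤ, ((ep t : ℤ) : ZMod 2) = 1 := by
    intro t; unfold ep; split_ifs
    · rfl
    · decide
  by_cases c1 : a = i ∧ b = j + 1
  · unfold Kz
    rw [if_pos c1, if_pos c1, if_neg (by omega), if_neg (by omega), if_neg (by omega),
      if_neg (by omega), if_neg (by omega)]
    simp
  rw [if_neg c1]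
  by_cases c2 : a = i ∧ j = b + 1
  · unfold Kz
    rw [if_neg c1, if_pos c2, if_pos (by omega), if_neg (by omega), if_neg (by omega),
      if_neg (by omega), if_neg (by omega)]
    decide
  rw [if_neg (show ¬ (a = i ∧ b = j - 1) by omega)]
  by_cases c3 : a = i + 1 ∧ (b = j ∨ b = j + 1)
  · unfold Kz
    rw [if_neg c1, if_neg c2, if_pos c3, hep]
    rw [if_neg (show ¬ (a = i - 1 ∧ b = j) by omega),
      if_neg (show ¬ (a = i - 1 ∧ b = j - 1) by omega)]
    rcases c3 with ⟨h, h' | h'⟩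
    · rw [if_pos (by omega), if_neg (by omega)]; simp
    · rw [if_neg (by omega), if_pos (by omega)]; simp
  rw [if_neg (show ¬ (a = i + 1 ∧ b = j) by omega),
    if_neg (show ¬ (a = i + 1 ∧ b = j + 1) by omega)]
  by_cases c4 : i = a + 1 ∧ (j = b ∨ j = b + 1)
  · unfold Kz
    rw [if_neg c1, if_neg c2, if_neg c3, if_pos c4, Int.cast_neg, hep]
    rcases c4 with ⟨h, h' | h'⟩
    · rw [if_pos (by omega), if_neg (by omega)]; decide
    · rw [if_neg (by omega), if_pos (by omega)]; decide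
  unfold Kz
  rw [if_neg c1, if_neg c2, if_neg c3, if_neg c4, if_neg (by omega), if_neg (by omega)]
  simp

end Pool.Agent.Helper25
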