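import Mathlib

/-!
The mod 2 kernel analysis on the triangular grid.
-/

set_option autoImplicit false

namespace Pool.Agent.Helper25

/-- A function on the triangle `0 ≤ j ≤ i ≤ n-1` with values in `ZMod 2`, extended by zero, whose
neighbour sums all vanish, which is symmetric under the reflection `(i,j) ↦ (i,i-j)`, vanishes at
the axis points `(4p,2p)` and has vanishing half neighbour sums there, is zero. -/
theorem kernel_trivial (n q : ℕ) (hn : n = 4 * q ∨ n + 1 = 4 * q) (x : ℤ → ℤ → ZMod 2)
    (hS : ∀ i j, ¬ (0 ≤ j ∧ j ≤ i ∧ i ≤ (n : ℤ) - 1) → x i j = 0)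
    (hP : ∀ i j, (0 ≤ j ∧ j ≤ i ∧ i ≤ (n : ℤ) - 1) →
      x i (j + 1) + x i (j - 1) + x (i + 1) j + x (i + 1) (j + 1) + x (i - 1) j
        + x (i - 1) (j - 1) = 0)
    (hR : ∀ i j, x i j = x i (i - j))
    (hA : ∀ p : ℕ, p < q → x (4 * p) (2 * p) = 0)
    (hH : ∀ p : ℕ, p < q →
      x (4 * p) (2 * p - 1) + x (4 * p - 1) (2 * p - 1) + x (4 * p + 1) (2 * p) = 0) :
    ∀ i j, x i j = 0 := by
  -- horizontal rhombus relations
  have h1 : ∀ (i : ℤ), 0 ≤ i → i ≤ (n : ℤ) - 1 → ∀ t : ℕ, (t : ℤ) ≤ i + 1 →
      x i (t - 1) + x i t + x (i - 1) (t - 1) + x (i + 1) t = x i 0 + x (i + 1) 0 := by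
    intro i hi0 hi1 t
    induction t with
    | zero =>
      intro _
      have e1 : x i (((0 : ℕ) : ℤ) - 1) = 0 := hS _ _ (by rintro ⟨h, -, -⟩; simp at h)
      have e2 : x (i - 1) (((0 : ℕ) : ℤ) - 1) = 0 :=
        hS _ _ (by rintro ⟨h, -, -⟩; simp at h)
      rw [e1, e2]
      push_cast
      ring
    | succ t ih =>
      intro ht
      have ih' := ih (by push_cast at ht; omega)
      have hp := hP i t ⟨by omega, by push_cast at ht; omega, hi1⟩
      push_cast
      have e1 : (t : ℤ) + 1 - 1 = t := by ring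
      rw [e1]
      grind
  -- diagonal rhombus relations
  have h2 : ∀ (d : ℤ), 0 ≤ d → ∀ t : ℕ, d + (t : ℤ) ≤ n →
      x (d - 1 + t) (t - 1) + x (d + t) t + x (d - 1 + t) t + x (d + t) (t - 1)
        = x d 0 + x (d - 1) 0 := by
    intro d hd t
    induction t with
    | zero =>
      intro _
      have e1 : x (d - 1 + ((0 : ℕ) : ℤ)) (((0 : ℕ) : ℤ) - 1) = 0 :=
        hS _ _ (by rintro ⟨h, -, -⟩; simp at h)
      have e2 : x (d + ((0 : ℕ) : ℤ)) (((0 : ℕ) : ℤ) - 1) = 0 :=
        hS _ _ (by rintro ⟨h, -, -⟩; simp at h)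
      rw [e1, e2]
      push_cast
      have e3 : d + 0 = d := by ring
      have e4 : d - 1 + 0 = d - 1 := by ring
      rw [e3, e4]
      ring
    | succ t ih =>
      intro ht
      have ih' := ih (by push_cast at ht; omega)
      have hp := hP (d + t) t ⟨by omega, by omega, by push_cast at ht; omega⟩
      push_cast
      have e1 : (t : ℤ) + 1 - 1 = t := by ring
      have e2 : d - 1 + ((t : ℤ) + 1) = d + t := by ring
      have e3 : d + ((t : ℤ) + 1) = d + t + 1 := by ring
      have e4 : d - 1 + (t : ℤ) = d + t - 1 := by ring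
      rw [e1, e2, e3]
      rw [e4] at ih'
      grind
  -- bottom side against left side
  have h3 : ∀ t : ℕ, (t : ℤ) ≤ (n : ℤ) - 1 → x ((n : ℤ) - 1) ((n : ℤ) - 1 - t) = x t 0 := by
    intro t
    induction t with
    | zero =>
      intro h0
      have h := h2 0 le_rfl n (by omega)
      have e1 : x ((0 : ℤ) + n) (n : ℤ) = 0 := hS _ _ (by omega)
      have e2 : x ((0 : ℤ) - 1 + n) (n : ℤ) = 0 := hS _ _ (by omega)
      have e3 : x ((0 : ℤ) + n) ((n : ℤ) - 1) = 0 := hS _ _ (by omega)
      have e4 : x ((0 : ℤ) - 1) 0 = 0 := hS _ _ (by omega)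
      rw [e1, e2, e3, e4] at h
      have e5 : (0 : ℤ) - 1 + n = (n : ℤ) - 1 := by ring
      rw [e5] at h
      push_cast
      have e6 : (n : ℤ) - 1 - 0 = (n : ℤ) - 1 := by ring
      rw [e6]
      simpa using h
    | succ t ih =>
      intro ht
      push_cast at ht
      have ih' := ih (by omega)
      have h := h2 ((t : ℤ) + 1) (by omega) (n - (t + 1)) (by
        rw [Nat.cast_sub (by omega)]; push_cast; omega)
      rw [Nat.cast_sub (by omega)] at h
      push_cast at h
      have e1 : x ((t : ℤ) + 1 + ((n : ℤ) - (t + 1))) ((n : ℤ) - (t + 1)) = 0 :=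
        hS _ _ (by omega)
      have e2 : x ((t : ℤ) + 1 + ((n : ℤ) - (t + 1))) ((n : ℤ) - (t + 1) - 1) = 0 :=
        hS _ _ (by omega)
      rw [e1, e2] at h
      have e3 : (t : ℤ) + 1 - 1 + ((n : ℤ) - (t + 1)) = (n : ℤ) - 1 := by ring
      have e4 : (n : ℤ) - ((t : ℤ) + 1) - 1 = (n : ℤ) - 1 - (t + 1) := by ring
      have e5 : (n : ℤ) - ((t : ℤ) + 1) = (n : ℤ) - 1 - t := by ring
      have e6 : (t : ℤ) + 1 - 1 = t := by ring
      rw [e3, e4, e5, e6] at h
      push_cast
      grind
  -- the left side is a palindrome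
  have h4 : ∀ i : ℤ, 0 ≤ i → i ≤ (n : ℤ) - 1 → x i 0 = x ((n : ℤ) - 1 - i) 0 := by
    intro i hi0 hi1
    have h3' : ∀ i : ℤ, 0 ≤ i → i ≤ (n : ℤ) - 1 → x ((n : ℤ) - 1) ((n : ℤ) - 1 - i) = x i 0 := by
      intro i hi0 hi1
      have := h3 i.toNat (by omega)
      rwa [Int.toNat_of_nonneg hi0] at this
    have a1 := h3' i hi0 hi1
    have a2 := h3' ((n : ℤ) - 1 - i) (by omega) (by omega)
    have a3 : (n : ℤ) - 1 - ((n : ℤ) - 1 - i) = i := by ring
    rw [a3] at a2
    rw [← a1, ← a2, hR ((n : ℤ) - 1) i]
  -- relations along the axis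
  have h5 : ∀ p : ℕ, p < q → x (4 * p) 0 = x (4 * p + 1) 0 := by
    intro p hp
    have h := h1 (4 * p) (by omega) (by omega) (2 * p) (by push_cast; omega)
    push_cast at h
    have hh := hH p hp
    have ha := hA p hp
    grind
  have h6 : ∀ m : ℕ, 2 * (m : ℤ) + 1 ≤ (n : ℤ) - 1 →
      x (2 * m) m + x (2 * m + 2) (m + 1) = x (2 * m + 1) 0 + x (2 * m + 2) 0 := by
    intro m hm
    have h := h1 (2 * m + 1) (by omega) hm (m + 1) (by push_cast; omega)
    push_cast at h
    have e1 : (m : ℤ) + 1 - 1 = m := by ring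
    have e2 : 2 * (m : ℤ) + 1 - 1 = 2 * m := by ring
    have e3 : 2 * (m : ℤ) + 1 + 1 = 2 * m + 2 := by ring
    rw [e1, e2, e3] at h
    have hr := hR (2 * m + 1) m
    have e4 : 2 * (m : ℤ) + 1 - m = m + 1 := by ring
    rw [e4] at hr
    grind
  have h7 : ∀ p : ℕ, p + 1 < q →
      x (4 * p + 1) 0 + x (4 * p + 2) 0 + x (4 * p + 3) 0 + x (4 * p + 4) 0 = 0 := by
    intro p hp
    have a1 := h6 (2 * p) (by push_cast; omega)
    have a2 := h6 (2 * p + 1) (by push_cast; omega)
    push_cast at a1 a2
    have b1 := hA p (by omega)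
    have b2 := hA (p + 1) hp
    push_cast at b2
    have e1 : 2 * (2 * (p : ℤ)) = 4 * p := by ring
    have e2 : 2 * (2 * (p : ℤ) + 1) = 4 * p + 2 := by ring
    have e3 : 4 * (p : ℤ) + 2 + 2 = 4 * p + 4 := by ring
    have e4 : 2 * (p : ℤ) + 1 + 1 = 2 * p + 2 := by ring
    have e5 : 4 * ((p : ℤ) + 1) = 4 * p + 4 := by ring
    have e6 : 2 * ((p : ℤ) + 1) = 2 * p + 2 := by ring
    have e7 : 4 * (p : ℤ) + 2 + 1 = 4 * p + 3 := by ring
    rw [e1] at a1
    rw [e2, e3, e4, e7] at a2
    rw [e5, e6] at b2
    grind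
  -- the left side vanishes
  have h8 : ∀ i : ℤ, 0 ≤ i → i ≤ (n : ℤ) - 1 → x i 0 = 0 := by
    rcases hn with hn | hn
    · -- n = 4 q
      have c1 : ∀ p : ℕ, p < q → x (4 * p) 0 = 0 := by
        intro p
        induction p with
        | zero =>
          intro hq
          have := hA 0 hq
          simpa using this
        | succ p ih =>
          intro hp
          have i1 := ih (by omega)
          have i2 := h7 p hp
          have i3 := h5 p (by omega)
          have i4 := h4 (4 * p + 2) (by omega) (by omega)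
          have i5 := h4 (4 * p + 3) (by omega) (by omega)
          have i6 := h5 (q - 1 - p) (by omega)
          have hc : ((q - 1 - p : ℕ) : ℤ) = (q : ℤ) - 1 - p := by omega
          rw [hc] at i6
          have e1 : (n : ℤ) - 1 - (4 * p + 2) = 4 * ((q : ℤ) - 1 - p) + 1 := by
            rw [hn]; push_cast; ring
          have e2 : (n : ℤ) - 1 - (4 * p + 3) = 4 * ((q : ℤ) - 1 - p) := by
            rw [hn]; push_cast; ring
          rw [e1] at i4
          rw [e2] at i5
          push_cast
          have e3 : 4 * ((p : ℤ) + 1) = 4 * p + 4 := by ring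
          rw [e3]
          grind
      intro i hi0 hi1
      have c2 : ∀ p : ℕ, p < q → x (4 * p + 1) 0 = 0 := fun p hp => by
        rw [← h5 p hp]; exact c1 p hp
      obtain ⟨p, r, hr, rfl⟩ : ∃ (p : ℕ) (r : ℕ), r < 4 ∧ i = 4 * p + r :=
        ⟨(i / 4).toNat, (i % 4).toNat, by omega, by omega⟩
      have hp : p < q := by omega
      interval_cases r
      · simpa using c1 p hp
      · simpa using c2 p hp
      · rw [h4 _ hi0 hi1]
        have hc : ((q - 1 - p : ℕ) : ℤ) = (q : ℤ) - 1 - p := by omega
        have e1 : (n : ℤ) - 1 - (4 * p + (2 : ℕ)) = 4 * ((q - 1 - p : ℕ) : ℤ) + 1 := by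
          rw [hn, hc]; push_cast; ring
        rw [e1]
        exact c2 _ (by omega)
      · rw [h4 _ hi0 hi1]
        have hc : ((q - 1 - p : ℕ) : ℤ) = (q : ℤ) - 1 - p := by omega
        have e1 : (n : ℤ) - 1 - (4 * p + (3 : ℕ)) = 4 * ((q - 1 - p : ℕ) : ℤ) := by
          rw [hn, hc]; push_cast; ring
        rw [e1]
        exact c1 _ (by omega)
    · -- n + 1 = 4 q
      have hn' : (n : ℤ) = 4 * q - 1 := by omega
      have c3 : ∀ p : ℕ, p < q → x (4 * p + 2) 0 = x (4 * p + 1) 0 := by
        intro p hp
        have i4 := h4 (4 * p + 2) (by omega) (by omega)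
        have i5 := h4 (4 * p + 1) (by omega) (by omega)
        have i6 := h5 (q - 1 - p) (by omega)
        have hc : ((q - 1 - p : ℕ) : ℤ) = (q : ℤ) - 1 - p := by omega
        rw [hc] at i6
        have e1 : (n : ℤ) - 1 - (4 * p + 2) = 4 * ((q : ℤ) - 1 - p) := by
          rw [hn']; ring
        have e2 : (n : ℤ) - 1 - (4 * p + 1) = 4 * ((q : ℤ) - 1 - p) + 1 := by
          rw [hn']; ring
        rw [e1] at i4
        rw [e2] at i5
        rw [i4, i5, i6]
      have c34 : ∀ p : ℕ, p + 1 < q → x (4 * p + 3) 0 = x (4 * p + 4) 0 := by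
        intro p hp
        have i2 := h7 p hp
        have i3 := c3 p (by omega)
        grind
      have c1 : ∀ p : ℕ, p < q → x (4 * p) 0 = 0 := by
        intro p
        induction p with
        | zero =>
          intro hq
          have := hA 0 hq
          simpa using this
        | succ p ih =>
          intro hp
          have i1 := ih (by omega)
          have i2 := h5 p (by omega)
          have i3 := c3 p (by omega)
          -- l(4p+3) = l(4(q-2-p)+3) = l(4(q-2-p)+4) = l(4p+2)
          have i4 := h4 (4 * p + 3) (by omega) (by omega)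
          have i5 := c34 (q - 2 - p) (by omega)
          have i6 := h4 (4 * p + 2) (by omega) (by omega)
          have hc : ((q - 2 - p : ℕ) : ℤ) = (q : ℤ) - 2 - p := by omega
          rw [hc] at i5
          have e1 : (n : ℤ) - 1 - (4 * p + 3) = 4 * ((q : ℤ) - 2 - p) + 3 := by
            rw [hn']; ring
          have e2 : (n : ℤ) - 1 - (4 * p + 2) = 4 * ((q : ℤ) - 2 - p) + 4 := by
            rw [hn']; ring
          rw [e1] at i4
          rw [e2] at i6
          have i7 := c34 p hp
          push_cast
          have e3 : 4 * ((p : ℤ) + 1) = 4 * p + 4 := by ring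
          rw [e3, ← i7, i4, i5, ← i6, i3, ← i2, i1]
      have c2 : ∀ p : ℕ, p < q → x (4 * p + 1) 0 = 0 := fun p hp => by
        rw [← h5 p hp]; exact c1 p hp
      intro i hi0 hi1
      obtain ⟨p, r, hr, rfl⟩ : ∃ (p : ℕ) (r : ℕ), r < 4 ∧ i = 4 * p + r :=
        ⟨(i / 4).toNat, (i % 4).toNat, by omega, by omega⟩
      have hp : p < q := by omega
      interval_cases r
      · simpa using c1 p hp
      · simpa using c2 p hp
      · have := c3 p hp
        rw [c2 p hp] at this
        simpa using this
      · have hp' : p + 1 < q := by omega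
        have := c34 p hp'
        have h9 := c1 (p + 1) hp'
        push_cast at h9
        have e3 : 4 * ((p : ℤ) + 1) = 4 * p + 4 := by ring
        rw [e3] at h9
        rw [h9] at this
        simpa using this
  -- propagate row by row
  have h9 : ∀ i : ℕ, ∀ k : ℕ, k ≤ i → ∀ j : ℤ, x k j = 0 := by
    intro i
    induction i with
    | zero =>
      intro k hk j
      have hk0 : k = 0 := by omega
      subst hk0
      by_cases hj : j = 0
      · subst hj
        by_cases hn0 : (0 : ℤ) ≤ (n : ℤ) - 1
        · simpa using h8 0 le_rfl hn0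
        · exact hS _ _ (by push_cast; omega)
      · exact hS _ _ (by push_cast; omega)
    | succ i ih =>
      intro k hk j
      rcases Nat.lt_or_ge k (i + 1) with hlt | hge
      · exact ih k (by omega) j
      · have hk1 : k = i + 1 := by omega
        subst hk1
        by_cases hin : (i : ℤ) + 1 ≤ (n : ℤ) - 1
        · have hcol : ∀ t : ℕ, x ((i + 1 : ℕ) : ℤ) t = 0 := by
            intro t
            induction t with
            | zero =>
              have := h8 ((i + 1 : ℕ) : ℤ) (by omega) (by push_cast; omega)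
              simpa using this
            | succ t iht =>
              by_cases ht : t ≤ i
              · have hp := hP i t ⟨by omega, by omega, by omega⟩
                have a1 := ih i le_rfl ((t : ℤ) + 1)
                have a2 := ih i le_rfl ((t : ℤ) - 1)
                have a3 : ∀ j : ℤ, x ((i : ℤ) - 1) j = 0 := by
                  intro j
                  rcases Nat.eq_zero_or_pos i with h0 | h0
                  · subst h0
                    exact hS _ _ (by push_cast; omega)
                  · have := ih (i - 1) (by omega) j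
                    rw [Nat.cast_sub (by omega)] at this
                    simpa using this
                have a4 := a3 t
                have a5 := a3 ((t : ℤ) - 1)
                push_cast at iht ⊢
                rw [a1, a2, a4, a5, iht] at hp
                simpa using hp
              · exact hS _ _ (by push_cast; omega)
          by_cases hj : 0 ≤ j
          · have := hcol j.toNat
            rwa [Int.toNat_of_nonneg hj] at this
          · exact hS _ _ (by omega)
        · exact hS _ _ (by push_cast; omega)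
  intro i j
  by_cases hi : 0 ≤ i
  · have := h9 i.toNat i.toNat le_rfl j
    rwa [Int.toNat_of_nonneg hi] at this
  · exact hS _ _ (by omega)

end Pool.Agent.Helper25
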