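import Mathlib
import Pool.Agent.Helper25.Kast
import Pool.Agent.Helper25.TriKernel
import Pool.Agent.Helper25.TriInt
import Pool.Agent.Helper25.TriDefs

/-!
The 2-adic valuation of the number of perfect matchings of the triangular grid graph.
-/

set_option autoImplicit false

namespace Pool.Agent.Helper25.Tri

open Matrix Equiv

variable (n : ℕ)

instance : Finite (Vtx n) := by
  apply Finite.of_injective (fun p : Vtx n =>
    ((⟨p.1.1.toNat, by have := p.2; omega⟩, ⟨p.1.2.toNat, by have := p.2; omega⟩) : Fin n × Fin n))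
  intro p q h
  simp only [Prod.mk.injEq, Fin.mk.injEq] at h
  have hp := p.2
  have hq := q.2
  apply Subtype.ext
  apply Prod.ext
  · omega
  · omega

noncomputable instance : Fintype (Vtx n) := Fintype.ofFinite _

variable {n}

lemma T_adj (u v : Vtx n) : (T n).Adj u v ↔
    az u.1.1 u.1.2 v.1.1 v.1.2 ∨ az v.1.1 v.1.2 u.1.1 u.1.2 := by
  unfold T az
  rw [SimpleGraph.fromRel_adj]
  simp only [Prod.ext_iff, Prod.fst_sub, Prod.snd_sub]
  constructor
  · rintro ⟨-, h | h⟩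
    · left; omega
    · right; omega
  · intro h
    refine ⟨?_, ?_⟩
    · rintro rfl
      omega
    · rcases h with h | h
      · left; omega
      · right; omega

/-- the Kasteleyn matrix -/
def KK (u v : Vtx n) : ℤ := Kz u.1.1 u.1.2 v.1.1 v.1.2

/-- order sign -/
def ff (u v : Vtx n) : ℤ := fz u.1.1 u.1.2 v.1.1 v.1.2

/-- below sign -/
def gg (u v w : Vtx n) : ℤ := gz u.1.1 u.1.2 v.1.1 v.1.2 w.1.1 w.1.2

lemma prod_row (a b : ℤ) (h : 0 ≤ b ∧ b ≤ a ∧ a ≤ (n : ℤ) - 1) :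
    ∏ w : Vtx n, (if w.1.1 = a ∧ w.1.2 < b then (-1 : ℤ) else 1) = ep b := by
  classical
  rw [Finset.prod_ite, Finset.prod_const, Finset.prod_const_one, mul_one]
  have hcard : (Finset.univ.filter (fun w : Vtx n => w.1.1 = a ∧ w.1.2 < b)).card = b.toNat := by
    rw [← Finset.card_range b.toNat]
    symm
    apply Finset.card_bij (fun (t : ℕ) (ht : t ∈ Finset.range b.toNat) =>
      (⟨(a, (t : ℤ)), by
        rw [Finset.mem_range] at ht
        refine ⟨?_, ?_, ?_⟩ <;> simp only <;> omega⟩ : Vtx n))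
    · intro t ht
      rw [Finset.mem_range] at ht
      simp only [Finset.mem_filter, Finset.mem_univ, true_and]
      omega
    · intro t ht s hs hts
      simp only [Subtype.mk.injEq, Prod.mk.injEq] at hts
      omega
    · intro w hw
      simp only [Finset.mem_filter, Finset.mem_univ, true_and] at hw
      have hw2 := w.2
      refine ⟨w.1.2.toNat, ?_, ?_⟩
      · rw [Finset.mem_range]; omega
      · apply Subtype.ext
        apply Prod.ext
        · simp only; omega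
        · simp only; omega
  rw [hcard]
  unfold ep
  have hb : ((b.toNat : ℕ) : ℤ) = b := Int.toNat_of_nonneg h.1
  split_ifs with hpar
  · rw [Even.neg_one_pow]
    rw [Nat.even_iff]; omega
  · rw [Odd.neg_one_pow]
    rw [Nat.odd_iff]; omega

lemma kast : KastData (T n) (ff (n := n)) gg KK where
  f_anti := fun u v => fz_anti _ _ _ _
  f_sq := by
    intro u v huv
    have hne : ¬ (u.1.1 = v.1.1 ∧ u.1.2 = v.1.2) := by
      rintro ⟨h1, h2⟩
      exact huv (Subtype.ext (Prod.ext h1 h2))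
    unfold ff
    by_cases h : u.1.1 < v.1.1 ∨ (u.1.1 = v.1.1 ∧ u.1.2 < v.1.2)
    · rw [fz_one _ _ _ _ h]; rfl
    · rw [fz_neg _ _ _ _ (by omega)]; rfl
  K_adj := by
    intro u v huv
    rw [T_adj] at huv
    unfold KK ff gg gz
    have hu := u.2
    have hv := v.2
    rcases lt_trichotomy u.1.1 v.1.1 with h | h | h
    · have h1 : v.1.1 = u.1.1 + 1 ∧ (v.1.2 = u.1.2 ∨ v.1.2 = u.1.2 + 1) := by
        unfold az at huv; omega
      have h2 : ∀ w : Vtx n, ((u.1.1 < v.1.1 ∧ w.1.1 = v.1.1 ∧ w.1.2 < v.1.2) ∨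
          (v.1.1 < u.1.1 ∧ w.1.1 = u.1.1 ∧ w.1.2 < u.1.2)) ↔ (w.1.1 = v.1.1 ∧ w.1.2 < v.1.2) := by
        intro w; omega
      simp only [h2]
      rw [prod_row _ _ hv, fz_one _ _ _ _ (Or.inl h), one_mul]
      unfold Kz
      rw [if_neg (by omega), if_neg (by omega), if_pos h1]
    · have h2 : ∀ w : Vtx n, ¬ ((u.1.1 < v.1.1 ∧ w.1.1 = v.1.1 ∧ w.1.2 < v.1.2) ∨
          (v.1.1 < u.1.1 ∧ w.1.1 = u.1.1 ∧ w.1.2 < u.1.2)) := by
        intro w; omega
      simp only [h2, if_false]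
      rw [Finset.prod_const_one, mul_one]
      have h3 : (v.1.1 = u.1.1 ∧ v.1.2 = u.1.2 + 1) ∨ (v.1.1 = u.1.1 ∧ u.1.2 = v.1.2 + 1) := by
        unfold az at huv; omega
      unfold Kz
      rcases h3 with h3 | h3
      · rw [if_pos h3, fz_one _ _ _ _ (by omega)]
      · rw [if_neg (by omega), if_pos h3, fz_neg _ _ _ _ (by omega)]
    · have h1 : u.1.1 = v.1.1 + 1 ∧ (u.1.2 = v.1.2 ∨ u.1.2 = v.1.2 + 1) := by
        unfold az at huv; omega
      have h2 : ∀ w : Vtx n, ((u.1.1 < v.1.1 ∧ w.1.1 = v.1.1 ∧ w.1.2 < v.1.2) ∨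
          (v.1.1 < u.1.1 ∧ w.1.1 = u.1.1 ∧ w.1.2 < u.1.2)) ↔ (w.1.1 = u.1.1 ∧ w.1.2 < u.1.2) := by
        intro w; omega
      simp only [h2]
      rw [prod_row _ _ hu, fz_neg _ _ _ _ (Or.inl h)]
      unfold Kz
      rw [if_neg (by omega), if_neg (by omega), if_neg (by omega), if_pos h1]
      ring
  K_nadj := by
    intro u v huv
    rw [T_adj] at huv
    unfold KK Kz
    unfold az at huv
    rw [if_neg (by omega), if_neg (by omega), if_neg (by omega), if_neg (by omega)]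
  g_left := by
    intro u v _
    exact gz_one _ _ _ _ _ _ (by omega)
  g_right := by
    intro u v _
    exact gz_one _ _ _ _ _ _ (by omega)
  pair := by
    intro u v x y huv hxy h1 h2 h3 h4
    rw [T_adj] at huv hxy
    have hne : ∀ p q : Vtx n, p ≠ q → ¬ (p.1.1 = q.1.1 ∧ p.1.2 = q.1.2) := by
      rintro p q hpq ⟨e1, e2⟩
      exact hpq (Subtype.ext (Prod.ext e1 e2))
    exact pair_int _ _ _ _ _ _ _ _ huv hxy (hne _ _ h1) (hne _ _ h2) (hne _ _ h3) (hne _ _ h4)

/-! ### the index sets -/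

/-- vertices strictly to the left of the axis -/
abbrev Lft (n : ℕ) : Type := {v : Vtx n // 2 * v.1.2 < v.1.1}

noncomputable instance : Fintype (Lft n) := Fintype.ofFinite _

/-- the reflection -/
def refl (v : Vtx n) : Vtx n := ⟨(v.1.1, v.1.1 - v.1.2), by
  have := v.2
  refine ⟨?_, ?_, ?_⟩ <;> simp only <;> omega⟩

@[simp] lemma refl_fst (v : Vtx n) : (refl v).1.1 = v.1.1 := rfl
@[simp] lemma refl_snd (v : Vtx n) : (refl v).1.2 = v.1.1 - v.1.2 := rfl

lemma vtx_ext {u v : Vtx n} (h1 : u.1.1 = v.1.1) (h2 : u.1.2 = v.1.2) : u = v :=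
  Subtype.ext (Prod.ext h1 h2)

lemma refl_refl (v : Vtx n) : refl (refl v) = v := by
  apply vtx_ext
  · simp
  · simp

lemma KK_refl (u v : Vtx n) : KK (refl u) (refl v) = - (Dz u.1.1 * Dz v.1.1) * KK u v :=
  Kz_refl _ _ _ _

lemma KK_anti (u v : Vtx n) : KK u v = - KK v u := Kz_anti _ _ _ _

section main

variable {q : ℕ} (hn : n = 4 * q ∨ n + 1 = 4 * q)

/-- the axis vertices `(4p, 2p)` -/
def axm (hn : n = 4 * q ∨ n + 1 = 4 * q) (p : Fin q) : Vtx n :=
  ⟨(4 * (p.val : ℤ), 2 * (p.val : ℤ)), by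
    have := p.2
    refine ⟨?_, ?_, ?_⟩ <;> simp only <;> omega⟩

/-- the axis vertices `(4p+2, 2p+1)` -/
def axp (hn : n = 4 * q ∨ n + 1 = 4 * q) (p : Fin q) : Vtx n :=
  ⟨(4 * (p.val : ℤ) + 2, 2 * (p.val : ℤ) + 1), by
    have := p.2
    refine ⟨?_, ?_, ?_⟩ <;> simp only <;> omega⟩

/-- labelling of all vertices -/
def rfun (hn : n = 4 * q ∨ n + 1 = 4 * q) : (Fin q ⊕ Lft n) ⊕ (Fin q ⊕ Lft n) → Vtx n :=
  Sum.elim (Sum.elim (axm hn) (fun v => refl v.1)) (Sum.elim (axp hn) (fun v => v.1))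

lemma rfun_bij : Function.Bijective (rfun hn) := by
  constructor
  · have hax1 : ∀ p : Fin q, (axm hn p).1.1 = 4 * (p.val : ℤ) := fun p => rfl
    have hax2 : ∀ p : Fin q, (axm hn p).1.2 = 2 * (p.val : ℤ) := fun p => rfl
    have hax3 : ∀ p : Fin q, (axp hn p).1.1 = 4 * (p.val : ℤ) + 2 := fun p => rfl
    have hax4 : ∀ p : Fin q, (axp hn p).1.2 = 2 * (p.val : ℤ) + 1 := fun p => rfl
    have cmp : ∀ a b : Vtx n, a = b → a.1.1 = b.1.1 ∧ a.1.2 = b.1.2 := by
      rintro a b rfl; exact ⟨rfl, rfl⟩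
    rintro ((p | v) | (p | v)) ((p' | v') | (p' | v')) h
    all_goals
      have h' := cmp _ _ h
      simp only [rfun, Sum.elim_inl, Sum.elim_inr, hax1, hax2, hax3, hax4, refl_fst,
        refl_snd] at h'
    · have : p = p' := Fin.ext (by omega)
      rw [this]
    · have := v'.2; omega
    · omega
    · have := v'.2; omega
    · have := v.2; omega
    · have : v = v' := Subtype.ext (vtx_ext (by omega) (by omega))
      rw [this]
    · have := v.2; omega
    · have := v.2; have := v'.2; omega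
    · omega
    · have := v'.2; omega
    · have : p = p' := Fin.ext (by omega)
      rw [this]
    · have := v'.2; omega
    · have := v.2; omega
    · have := v.2; have := v'.2; omega
    · have := v.2; omega
    · have : v = v' := Subtype.ext (vtx_ext (by omega) (by omega))
      rw [this]
  · intro u
    have hu := u.2
    rcases lt_trichotomy (2 * u.1.2) u.1.1 with h | h | h
    · exact ⟨Sum.inr (Sum.inr ⟨u, h⟩), rfl⟩
    · rcases Int.emod_two_eq_zero_or_one u.1.2 with h2 | h2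
      · refine ⟨Sum.inl (Sum.inl ⟨(u.1.2 / 2).toNat, by omega⟩), ?_⟩
        apply vtx_ext
        · simp only [rfun, Sum.elim_inl, axm]; omega
        · simp only [rfun, Sum.elim_inl, axm]; omega
      · refine ⟨Sum.inr (Sum.inl ⟨(u.1.2 / 2).toNat, by omega⟩), ?_⟩
        apply vtx_ext
        · simp only [rfun, Sum.elim_inl, Sum.elim_inr, axp]; omega
        · simp only [rfun, Sum.elim_inl, Sum.elim_inr, axp]; omega
    · refine ⟨Sum.inl (Sum.inr ⟨refl u, by simp only [refl_fst, refl_snd]; omega⟩), ?_⟩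
      simp only [rfun, Sum.elim_inl, Sum.elim_inr]
      exact refl_refl u

/-- the labelling as an equivalence -/
noncomputable def ρ : (Fin q ⊕ Lft n) ⊕ (Fin q ⊕ Lft n) ≃ Vtx n :=
  Equiv.ofBijective (rfun hn) (rfun_bij hn)

@[simp] lemma ρ_ll (p : Fin q) : ρ hn (Sum.inl (Sum.inl p)) = axm hn p := rfl
@[simp] lemma ρ_lr (v : Lft n) : ρ hn (Sum.inl (Sum.inr v)) = refl v.1 := rfl
@[simp] lemma ρ_rl (p : Fin q) : ρ hn (Sum.inr (Sum.inl p)) = axp hn p := rfl
@[simp] lemma ρ_rr (v : Lft n) : ρ hn (Sum.inr (Sum.inr v)) = v.1 := rfl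

/-- first diagonal -/
def D1 (n q : ℕ) : (Fin q ⊕ Lft n) → ℤ := Sum.elim (fun _ => 1) (fun v => Dz v.1.1.1)

/-- second diagonal -/
def E1 (n q : ℕ) : (Fin q ⊕ Lft n) → ℤ := Sum.elim (fun _ => 0) (fun _ => -1)

/-- the change of basis -/
def TT (n q : ℕ) [DecidableEq (Lft n)] :
    Matrix ((Fin q ⊕ Lft n) ⊕ (Fin q ⊕ Lft n)) ((Fin q ⊕ Lft n) ⊕ (Fin q ⊕ Lft n)) ℤ :=
  Matrix.fromBlocks (Matrix.diagonal (D1 n q)) (Matrix.diagonal (E1 n q)) 0 1

lemma TT_det : (TT n q).det * (TT n q).det = 1 := by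
  unfold TT
  rw [Matrix.det_fromBlocks_zero₂₁, Matrix.det_one, mul_one, Matrix.det_diagonal,
    ← Finset.prod_mul_distrib]
  apply Finset.prod_eq_one
  rintro (p | v) _
  · simp [D1]
  · simp only [D1, Sum.elim_inr]
    exact Dz_sq _

/-- the reduced matrix -/
def ZZ' (hn : n = 4 * q ∨ n + 1 = 4 * q) : Matrix (Fin q ⊕ Lft n) (Fin q ⊕ Lft n) ℤ :=
  Matrix.fromBlocks 0 (Matrix.of fun p w => KK (axm hn p) w.1)
    (Matrix.of fun v p => - KK v.1 (axp hn p))
    (Matrix.of fun v w => Dz v.1.1.1 * KK (refl v.1) w.1 - KK v.1 w.1)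

/-- column scaling -/
def SS (n q : ℕ) : (Fin q ⊕ Lft n) → ℤ := Sum.elim (fun _ => 2) (fun _ => 1)

lemma refl_axm (p : Fin q) : refl (axm hn p) = axm hn p := by
  apply vtx_ext
  · simp
  · simp only [refl_snd, axm]; omega

lemma refl_axp (p : Fin q) : refl (axp hn p) = axp hn p := by
  apply vtx_ext
  · simp
  · simp only [refl_snd, axp]; omega

lemma Dz_axm (p : Fin q) : Dz (axm hn p).1.1 = -1 := by
  unfold Dz axm
  rw [if_pos (by simp only; omega)]

lemma Dz_axp (p : Fin q) : Dz (axp hn p).1.1 = 1 := by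
  unfold Dz axp
  rw [if_neg (by simp only; omega)]

/-- two vertices of the axis are not adjacent -/
lemma KK_axis (u v : Vtx n) (hu : 2 * u.1.2 = u.1.1) (hv : 2 * v.1.2 = v.1.1) : KK u v = 0 := by
  unfold KK Kz
  rw [if_neg (by omega), if_neg (by omega), if_neg (by omega), if_neg (by omega)]

lemma axis_axm (p : Fin q) : 2 * (axm hn p).1.2 = (axm hn p).1.1 := by
  simp only [axm]; omega

lemma axis_axp (p : Fin q) : 2 * (axp hn p).1.2 = (axp hn p).1.1 := by
  simp only [axp]; omega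

lemma KK_axm_refl (p : Fin q) (v : Vtx n) : KK (axm hn p) (refl v) = Dz v.1.1 * KK (axm hn p) v := by
  have h := KK_refl (axm hn p) v
  rw [refl_axm, Dz_axm] at h
  rw [h]; ring

lemma KK_refl_axp (p : Fin q) (v : Vtx n) :
    KK (refl v) (axp hn p) = - (Dz v.1.1 * KK v (axp hn p)) := by
  have h := KK_refl v (axp hn p)
  rw [refl_axp, Dz_axp] at h
  rw [h]; ring

/-- **the number of perfect matchings as a determinant** -/
theorem M_eq : M n = 2 ^ q * (ZZ' hn).det.natAbs := by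
  classical
  set KM : Matrix ((Fin q ⊕ Lft n) ⊕ (Fin q ⊕ Lft n)) ((Fin q ⊕ Lft n) ⊕ (Fin q ⊕ Lft n)) ℤ :=
    Matrix.of fun a b => KK (ρ hn a) (ρ hn b) with hKM
  set Y : Matrix (Fin q ⊕ Lft n) (Fin q ⊕ Lft n) ℤ := KM.toBlocks₂₂ with hYdef
  have hY : Yᵀ = -Y := by
    ext a b
    simp only [hYdef, hKM, Matrix.transpose_apply, Matrix.toBlocks₂₂, Matrix.of_apply,
      Matrix.neg_apply]
    exact KK_anti _ _
  set Z : Matrix (Fin q ⊕ Lft n) (Fin q ⊕ Lft n) ℤ := ZZ' hn * Matrix.diagonal (SS n q) with hZdef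
  have hZ12 : Matrix.diagonal (D1 n q) * KM.toBlocks₁₂ + Matrix.diagonal (E1 n q) * KM.toBlocks₂₂
      = Z := by
    ext a b
    rw [hZdef, Matrix.mul_diagonal, Matrix.add_apply, Matrix.diagonal_mul, Matrix.diagonal_mul]
    simp only [hKM, Matrix.toBlocks₁₂, Matrix.toBlocks₂₂, Matrix.of_apply]
    rcases a with p | v <;> rcases b with p' | w
    · simp only [D1, E1, SS, ZZ', Sum.elim_inl, Matrix.fromBlocks_apply₁₁, ρ_ll, ρ_rl,
        Matrix.zero_apply]
      rw [KK_axis _ _ (axis_axm hn p) (axis_axp hn p')]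
      ring
    · simp only [D1, E1, SS, ZZ', Sum.elim_inl, Sum.elim_inr, Matrix.fromBlocks_apply₁₂, ρ_ll,
        ρ_rl, ρ_rr, Matrix.of_apply]
      ring
    · simp only [D1, E1, SS, ZZ', Sum.elim_inl, Sum.elim_inr, Matrix.fromBlocks_apply₂₁, ρ_lr,
        ρ_rl, ρ_rr, Matrix.of_apply]
      rw [KK_refl_axp]
      have := Dz_sq v.1.1.1
      linear_combination (-KK v.1 (axp hn p')) * this
    · simp only [D1, E1, SS, ZZ', Sum.elim_inr, Matrix.fromBlocks_apply₂₂, ρ_lr,
        ρ_rr, Matrix.of_apply]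
      ring
  have hanti21 : KM.toBlocks₂₁ = -(KM.toBlocks₁₂)ᵀ := by
    ext a b
    simp only [hKM, Matrix.toBlocks₂₁, Matrix.toBlocks₁₂, Matrix.of_apply, Matrix.neg_apply,
      Matrix.transpose_apply]
    exact KK_anti _ _
  have hZ21 : KM.toBlocks₂₁ * Matrix.diagonal (D1 n q) + KM.toBlocks₂₂ * Matrix.diagonal (E1 n q)
      = -Zᵀ := by
    rw [← hZ12, Matrix.transpose_add, Matrix.transpose_mul, Matrix.transpose_mul,
      Matrix.diagonal_transpose, Matrix.diagonal_transpose, hanti21]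
    have : (KM.toBlocks₂₂)ᵀ = - KM.toBlocks₂₂ := hY
    rw [this]
    simp only [Matrix.neg_mul, neg_add, neg_neg]
  have hZ11 : (Matrix.diagonal (D1 n q) * KM.toBlocks₁₁ + Matrix.diagonal (E1 n q) * KM.toBlocks₂₁)
        * Matrix.diagonal (D1 n q)
      + (Matrix.diagonal (D1 n q) * KM.toBlocks₁₂ + Matrix.diagonal (E1 n q) * KM.toBlocks₂₂)
        * Matrix.diagonal (E1 n q) = 0 := by
    ext a b
    rw [Matrix.add_apply, Matrix.mul_diagonal, Matrix.mul_diagonal, Matrix.add_apply,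
      Matrix.add_apply, Matrix.diagonal_mul, Matrix.diagonal_mul, Matrix.diagonal_mul,
      Matrix.diagonal_mul]
    simp only [hKM, Matrix.toBlocks₁₁, Matrix.toBlocks₁₂, Matrix.toBlocks₂₁, Matrix.toBlocks₂₂,
      Matrix.of_apply, Matrix.zero_apply]
    rcases a with p | v <;> rcases b with p' | w
    · simp only [D1, E1, Sum.elim_inl, ρ_ll, ρ_rl]
      rw [KK_axis _ _ (axis_axm hn p) (axis_axm hn p')]
      ring
    · simp only [D1, E1, Sum.elim_inl, Sum.elim_inr, ρ_ll, ρ_rl, ρ_lr, ρ_rr]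
      rw [KK_axm_refl]
      have := Dz_sq w.1.1.1
      linear_combination (KK (axm hn p) w.1) * this
    · simp only [D1, E1, Sum.elim_inl, Sum.elim_inr, ρ_ll, ρ_rl, ρ_lr, ρ_rr]
      rw [KK_anti (refl v.1), KK_axm_refl, KK_anti v.1 (axm hn p')]
      have := Dz_sq v.1.1.1
      linear_combination (-KK (axm hn p') v.1) * this
    · simp only [D1, E1, Sum.elim_inr, ρ_lr, ρ_rr]
      have h1 := KK_refl v.1 w.1
      have h2 : KK v.1 (refl w.1) = -(Dz v.1.1.1 * Dz w.1.1.1) * KK (refl v.1) w.1 := by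
        have := KK_refl (refl v.1) w.1
        rw [refl_refl] at this
        simpa using this
      rw [h1, h2]
      have e1 := Dz_sq v.1.1.1
      have e2 := Dz_sq w.1.1.1
      linear_combination (-(KK v.1 w.1) * Dz w.1.1.1 * Dz w.1.1.1) * e1 - (KK v.1 w.1) * e2
        + (Dz v.1.1.1 * KK (refl v.1) w.1) * e2
  have hfinal : TT n q * KM * (TT n q)ᵀ = Matrix.fromBlocks 0 Z (-Zᵀ) Y := by
    have hKMb : KM = Matrix.fromBlocks KM.toBlocks₁₁ KM.toBlocks₁₂ KM.toBlocks₂₁ KM.toBlocks₂₂ :=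
      (Matrix.fromBlocks_toBlocks KM).symm
    rw [hKMb]
    unfold TT
    rw [Matrix.fromBlocks_multiply, Matrix.fromBlocks_transpose, Matrix.fromBlocks_multiply]
    simp only [Matrix.transpose_zero, Matrix.transpose_one, Matrix.mul_zero, Matrix.mul_one,
      Matrix.zero_mul, Matrix.one_mul, zero_add, Matrix.diagonal_transpose]
    rw [hZ11, hZ12, hZ21]
  have hcount := card_perfectMatching (kast (n := n)) (ρ hn) (TT n q) TT_det Z Y hY hfinal
  unfold M
  rw [hcount, hZdef, Matrix.det_mul, Matrix.det_diagonal, Int.natAbs_mul]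
  have hprod : ∏ i, SS n q i = 2 ^ q := by
    rw [Fintype.prod_sum_type]
    simp [SS]
  rw [hprod]
  have : ((2 : ℤ) ^ q).natAbs = 2 ^ q := by
    rw [Int.natAbs_pow]; rfl
  rw [this, mul_comm]

end main

end Pool.Agent.Helper25.Tri
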