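import Mathlib
import Pool.Agent.Helper25.TriMain

/-!
The reduced determinant is odd.
-/

set_option autoImplicit false

namespace Pool.Agent.Helper25.Tri

open Matrix Equiv

variable {n q : ℕ}

/-- extension by zero -/
noncomputable def ext0 (X : Vtx n → ZMod 2) (i j : ℤ) : ZMod 2 :=
  open Classical in
  if h : 0 ≤ j ∧ j ≤ i ∧ i ≤ (n : ℤ) - 1 then X ⟨(i, j), h⟩ else 0

lemma ext0_vtx (X : Vtx n → ZMod 2) (u : Vtx n) : ext0 X u.1.1 u.1.2 = X u := by
  unfold ext0
  rw [dif_pos u.2]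

lemma ext0_out (X : Vtx n → ZMod 2) (i j : ℤ) (h : ¬ (0 ≤ j ∧ j ≤ i ∧ i ≤ (n : ℤ) - 1)) :
    ext0 X i j = 0 := by
  unfold ext0
  rw [dif_neg h]

lemma ind_sum (X : Vtx n → ZMod 2) (a b : ℤ) :
    ∑ w : Vtx n, (if w.1.1 = a ∧ w.1.2 = b then (1 : ZMod 2) else 0) * X w = ext0 X a b := by
  classical
  by_cases h : 0 ≤ b ∧ b ≤ a ∧ a ≤ (n : ℤ) - 1
  · rw [Finset.sum_eq_single (⟨(a, b), h⟩ : Vtx n)]
    · have := ext0_vtx X (⟨(a, b), h⟩ : Vtx n)
      simp only at this
      rw [this]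
      simp
    · intro w _ hw
      rw [if_neg, zero_mul]
      rintro ⟨h1, h2⟩
      exact hw (vtx_ext h1 h2)
    · intro h'
      exact absurd (Finset.mem_univ _) h'
  · rw [ext0_out X a b h]
    apply Finset.sum_eq_zero
    intro w _
    rw [if_neg, zero_mul]
    rintro ⟨rfl, rfl⟩
    exact h w.2

lemma nbr_sum (X : Vtx n → ZMod 2) (u : Vtx n) :
    ∑ w : Vtx n, ((KK u w : ℤ) : ZMod 2) * X w =
      ext0 X u.1.1 (u.1.2 + 1) + ext0 X u.1.1 (u.1.2 - 1) + ext0 X (u.1.1 + 1) u.1.2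
      + ext0 X (u.1.1 + 1) (u.1.2 + 1) + ext0 X (u.1.1 - 1) u.1.2
      + ext0 X (u.1.1 - 1) (u.1.2 - 1) := by
  unfold KK
  simp_rw [Kz_mod2, add_mul, Finset.sum_add_distrib, ind_sum]

lemma half_sum (X : Vtx n → ZMod 2) (u : Vtx n) (hu : 2 * u.1.2 = u.1.1) :
    ∑ w : Lft n, ((KK u w.1 : ℤ) : ZMod 2) * X w.1 =
      ext0 X u.1.1 (u.1.2 - 1) + ext0 X (u.1.1 - 1) (u.1.2 - 1) + ext0 X (u.1.1 + 1) u.1.2 := by
  classical
  rw [← ind_sum X, ← ind_sum X, ← ind_sum X, ← Finset.sum_add_distrib, ← Finset.sum_add_distrib,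
    ← Finset.sum_subtype (Finset.univ.filter (fun w : Vtx n => 2 * w.1.2 < w.1.1)) (by simp)
      (fun w : Vtx n => ((KK u w : ℤ) : ZMod 2) * X w), Finset.sum_filter]
  apply Finset.sum_congr rfl
  intro w _
  rw [← add_mul, ← add_mul]
  unfold KK
  by_cases h : 2 * w.1.2 < w.1.1
  · rw [if_pos h, Kz_mod2]
    rw [if_neg (show ¬ (w.1.1 = u.1.1 ∧ w.1.2 = u.1.2 + 1) by omega),
      if_neg (show ¬ (w.1.1 = u.1.1 + 1 ∧ w.1.2 = u.1.2 + 1) by omega),
      if_neg (show ¬ (w.1.1 = u.1.1 - 1 ∧ w.1.2 = u.1.2) by omega)]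
    ring
  · rw [if_neg h]
    rw [if_neg (show ¬ (w.1.1 = u.1.1 ∧ w.1.2 = u.1.2 - 1) by omega),
      if_neg (show ¬ (w.1.1 = u.1.1 - 1 ∧ w.1.2 = u.1.2 - 1) by omega),
      if_neg (show ¬ (w.1.1 = u.1.1 + 1 ∧ w.1.2 = u.1.2) by omega)]
    ring

lemma Dz_mod2 (i : ℤ) : ((Dz i : ℤ) : ZMod 2) = 1 := by
  unfold Dz
  split_ifs
  · decide
  · decide

lemma two_zmod2 : (2 : ZMod 2) = 0 := by decide

/-- mod 2 the Kasteleyn matrix is invariant under the reflection -/
lemma KK_refl_mod2 (u v : Vtx n) : ((KK (refl u) (refl v) : ℤ) : ZMod 2) = ((KK u v : ℤ) : ZMod 2) := by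
  rw [KK_refl]
  push_cast
  rw [Dz_mod2, Dz_mod2]
  generalize ((KK u v : ℤ) : ZMod 2) = t
  revert t
  decide

theorem ZZ'_odd (hn : n = 4 * q ∨ n + 1 = 4 * q) : (((ZZ' hn).det : ℤ) : ZMod 2) ≠ 0 := by
  classical
  intro h0
  have hdet : ((Int.castRingHom (ZMod 2)).mapMatrix (ZZ' hn)).det = 0 := by
    rw [← RingHom.map_det]
    exact h0
  obtain ⟨y, hy0, hy⟩ := Matrix.exists_mulVec_eq_zero_iff.2 hdet
  apply hy0
  have hy' : ∀ a, ∑ b, ((ZZ' hn a b : ℤ) : ZMod 2) * y b = 0 := by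
    intro a
    have := congrFun hy a
    simpa [Matrix.mulVec, dotProduct] using this
  set X : Vtx n → ZMod 2 := fun u =>
    Sum.elim (Sum.elim (fun _ => 0) (fun v => y (Sum.inr v))) y ((ρ hn).symm u) with hXdef
  have hXρ : ∀ a, X (ρ hn a) = Sum.elim (Sum.elim (fun _ => 0) (fun v => y (Sum.inr v))) y a := by
    intro a
    simp only [hXdef, Equiv.symm_apply_apply]
  have hXm : ∀ p, X (axm hn p) = 0 := fun p => hXρ (Sum.inl (Sum.inl p))
  have hXp : ∀ p, X (axp hn p) = y (Sum.inl p) := fun p => hXρ (Sum.inr (Sum.inl p))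
  have hXl : ∀ v : Lft n, X v.1 = y (Sum.inr v) := fun v => hXρ (Sum.inr (Sum.inr v))
  have hXr : ∀ v : Lft n, X (refl v.1) = y (Sum.inr v) := fun v => hXρ (Sum.inl (Sum.inr v))
  have hXrefl : ∀ u, X (refl u) = X u := by
    intro u
    obtain ⟨a, rfl⟩ := (ρ hn).surjective u
    rcases a with (p | v) | (p | v)
    · rw [ρ_ll, refl_axm]
    · rw [ρ_lr, refl_refl, hXl, hXr]
    · rw [ρ_rl, refl_axp]
    · rw [ρ_rr, hXl, hXr]
  -- total neighbour sums through the labelling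
  have htot : ∀ u : Vtx n, ∑ w : Vtx n, ((KK u w : ℤ) : ZMod 2) * X w =
      (∑ w : Lft n, ((KK u (refl w.1) : ℤ) : ZMod 2) * y (Sum.inr w)) +
      ((∑ p : Fin q, ((KK u (axp hn p) : ℤ) : ZMod 2) * y (Sum.inl p)) +
      ∑ w : Lft n, ((KK u w.1 : ℤ) : ZMod 2) * y (Sum.inr w)) := by
    intro u
    rw [← Equiv.sum_comp (ρ hn), Fintype.sum_sum_type, Fintype.sum_sum_type, Fintype.sum_sum_type]
    simp only [ρ_ll, ρ_lr, ρ_rl, ρ_rr, hXm, hXp, hXl, hXr, mul_zero, Finset.sum_const_zero,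
      zero_add]
  have hleft : ∀ v : Lft n, ∑ w : Vtx n, ((KK v.1 w : ℤ) : ZMod 2) * X w = 0 := by
    intro v
    have h := hy' (Sum.inr v)
    rw [Fintype.sum_sum_type] at h
    simp only [ZZ', Matrix.fromBlocks_apply₂₁, Matrix.fromBlocks_apply₂₂, Matrix.of_apply] at h
    push_cast at h
    rw [htot v.1]
    have h1 : ∀ w : Lft n, ((KK v.1 (refl w.1) : ℤ) : ZMod 2) = ((KK (refl v.1) w.1 : ℤ) : ZMod 2) := by
      intro w
      have := KK_refl_mod2 (refl v.1) w.1
      rwa [refl_refl] at this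
    simp_rw [h1]
    simp_rw [Dz_mod2, one_mul, sub_mul, neg_mul, Finset.sum_sub_distrib, Finset.sum_neg_distrib] at h
    grind
  have hall : ∀ u : Vtx n, ∑ w : Vtx n, ((KK u w : ℤ) : ZMod 2) * X w = 0 := by
    intro u
    rcases lt_trichotomy (2 * u.1.2) u.1.1 with h | h | h
    · exact hleft ⟨u, h⟩
    · rw [htot u]
      have h1 : ∀ w : Lft n, ((KK u (refl w.1) : ℤ) : ZMod 2) = ((KK u w.1 : ℤ) : ZMod 2) := by
        intro w
        have hu : refl u = u := by
          apply vtx_ext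
          · simp
          · simp only [refl_snd]; omega
        have := KK_refl_mod2 u w.1
        rwa [hu] at this
      have h2 : ∀ p : Fin q, KK u (axp hn p) = 0 := fun p => KK_axis _ _ h (axis_axp hn p)
      simp_rw [h1, h2]
      simp only [Int.cast_zero, zero_mul, Finset.sum_const_zero, zero_add]
      grind
    · have h1 := hleft ⟨refl u, by simp only [refl_fst, refl_snd]; omega⟩
      simp only at h1
      have hre : ∑ w : Vtx n, ((KK u w : ℤ) : ZMod 2) * X w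
          = ∑ w : Vtx n, ((KK u (refl w) : ℤ) : ZMod 2) * X (refl w) := by
        symm
        exact Equiv.sum_comp (⟨refl, refl, refl_refl, refl_refl⟩ : Vtx n ≃ Vtx n)
          (fun w => ((KK u w : ℤ) : ZMod 2) * X w)
      rw [hre, ← h1]
      apply Finset.sum_congr rfl
      intro w _
      rw [hXrefl]
      have := KK_refl_mod2 (refl u) w
      rw [refl_refl] at this
      rw [this]
  -- apply the kernel theorem
  have hker := kernel_trivial n q hn (ext0 X) (ext0_out X)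
    (by
      intro i j hij
      have := hall ⟨(i, j), hij⟩
      rw [nbr_sum] at this
      exact this)
    (by
      intro i j
      by_cases hij : 0 ≤ j ∧ j ≤ i ∧ i ≤ (n : ℤ) - 1
      · have h1 := ext0_vtx X ⟨(i, j), hij⟩
        have h2 := ext0_vtx X (refl ⟨(i, j), hij⟩)
        rw [hXrefl, ← h1] at h2
        simp only [refl_fst, refl_snd] at h2
        exact h2.symm
      · rw [ext0_out X i j hij, ext0_out X i (i - j) (by omega)])
    (by
      intro p hp
      have := ext0_vtx X (axm hn ⟨p, hp⟩)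
      rw [hXm] at this
      exact this)
    (by
      intro p hp
      have h1 := half_sum X (axm hn ⟨p, hp⟩) (axis_axm hn _)
      have h2 := hy' (Sum.inl ⟨p, hp⟩)
      rw [Fintype.sum_sum_type] at h2
      simp only [ZZ', Matrix.fromBlocks_apply₁₁, Matrix.fromBlocks_apply₁₂, Matrix.of_apply,
        Matrix.zero_apply, Int.cast_zero, zero_mul, Finset.sum_const_zero, zero_add] at h2
      simp_rw [hXl] at h1
      rw [h2] at h1
      exact h1.symm)
  have hX0 : ∀ u, X u = 0 := by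
    intro u
    rw [← ext0_vtx X u]
    exact hker _ _
  funext a
  rcases a with p | v
  · rw [← hXp p]; exact hX0 _
  · rw [← hXl v]; exact hX0 _

/-- **Main theorem.** -/
theorem valuation (n : ℕ) (h : n % 4 = 0 ∨ n % 4 = 3) :
    M n ≠ 0 ∧ padicValNat 2 (M n) = (n + 1) / 4 := by
  have key : ∀ q : ℕ, (n = 4 * q ∨ n + 1 = 4 * q) → M n ≠ 0 ∧ padicValNat 2 (M n) = q := by
    intro q hn
    have h1 := M_eq hn
    have h2 := ZZ'_odd hn
    have h3 : ¬ 2 ∣ (ZZ' hn).det.natAbs := by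
      intro h4
      apply h2
      rw [ZMod.intCast_zmod_eq_zero_iff_dvd]
      exact Int.natCast_dvd.2 h4
    have h5 : (ZZ' hn).det.natAbs ≠ 0 := by
      intro h6
      rw [h6] at h3
      exact h3 (dvd_zero 2)
    have : Fact (Nat.Prime 2) := ⟨Nat.prime_two⟩
    refine ⟨?_, ?_⟩
    · rw [h1]
      exact mul_ne_zero (by positivity) h5
    · rw [h1, padicValNat.mul (by positivity) h5, padicValNat.prime_pow,
        padicValNat.eq_zero_of_not_dvd h3, add_zero]
  rcases h with h | h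
  · have := key (n / 4) (by omega)
    have e : (n + 1) / 4 = n / 4 := by omega
    rw [e]
    exact this
  · exact key ((n + 1) / 4) (by omega)

end Pool.Agent.Helper25.Tri
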